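import Mathlib
import Pool.Agent.H705R2.ABC.Defs
import Pool.Agent.H705R2.ABC.JJ1
import Pool.Agent.H705R2.ABC.Pwr

/-!
# Moments of products of at most two character sums over powers
-/

set_option autoImplicit false

namespace Pool.Agent.U663.AB

open Finset Pool.Agent.H785R2.ABC Pool.Agent.H705R2.ABC Pool.Agent.H705R2.ABC.JJ

/-- replace the tuples by their products -/
def psi {m : ℕ} (t : ((Fin m → ℕ) × (Fin m → ℕ)) × ((Fin m → ℕ) × (Fin m → ℕ))) :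
    (ℕ × ℕ) × (ℕ × ℕ) :=
  ((∏ j, t.1.1 j, ∏ j, t.1.2 j), (∏ j, t.2.1 j, ∏ j, t.2.2 j))

/-- bound for a fibre of `psi` -/
theorem fibre_le {m : ℕ} {ε D : ℝ} (hε : 0 < ε) (hD : 0 < D)
    (hF : ∀ t : ℕ, 1 ≤ t → ∀ P : Finset (Fin m → ℕ),
      (∀ x ∈ P, ∏ j, x j = t) → (P.card : ℝ) ≤ D * (t : ℝ) ^ ε)
    {X : ℕ} (u : (ℕ × ℕ) × (ℕ × ℕ)) (h1 : 1 ≤ u.1.1 ∧ u.1.1 ≤ X) (h2 : 1 ≤ u.1.2 ∧ u.1.2 ≤ X)
    (h3 : 1 ≤ u.2.1 ∧ u.2.1 ≤ X) (h4 : 1 ≤ u.2.2 ∧ u.2.2 ≤ X)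
    (S : Finset (((Fin m → ℕ) × (Fin m → ℕ)) × ((Fin m → ℕ) × (Fin m → ℕ))))
    (hS : ∀ t ∈ S, psi t = u) : (S.card : ℝ) ≤ (D * (X : ℝ) ^ ε) ^ 4 := by
  classical
  have hb : ∀ v : ℕ, 1 ≤ v ∧ v ≤ X → D * (v : ℝ) ^ ε ≤ D * (X : ℝ) ^ ε := by
    intro v hv
    refine mul_le_mul_of_nonneg_left ?_ hD.le
    exact Real.rpow_le_rpow (by positivity) (by exact_mod_cast hv.2) hε.le
  have hsub : S ⊆ ((S.image fun t => t.1.1) ×ˢ (S.image fun t => t.1.2)) ×ˢ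
      ((S.image fun t => t.2.1) ×ˢ (S.image fun t => t.2.2)) := by
    intro t ht
    simp only [mem_product]
    exact ⟨⟨mem_image_of_mem _ ht, mem_image_of_mem _ ht⟩,
      mem_image_of_mem _ ht, mem_image_of_mem _ ht⟩
  have hcard := card_le_card hsub
  rw [card_product, card_product, card_product] at hcard
  have c1 : ((S.image fun t => t.1.1).card : ℝ) ≤ D * (X : ℝ) ^ ε := by
    refine (hF u.1.1 h1.1 _ ?_).trans (hb _ h1)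
    intro x hx
    obtain ⟨t, ht, rfl⟩ := mem_image.1 hx
    exact congrArg (fun z => z.1.1) (hS t ht)
  have c2 : ((S.image fun t => t.1.2).card : ℝ) ≤ D * (X : ℝ) ^ ε := by
    refine (hF u.1.2 h2.1 _ ?_).trans (hb _ h2)
    intro x hx
    obtain ⟨t, ht, rfl⟩ := mem_image.1 hx
    exact congrArg (fun z => z.1.2) (hS t ht)
  have c3 : ((S.image fun t => t.2.1).card : ℝ) ≤ D * (X : ℝ) ^ ε := by
    refine (hF u.2.1 h3.1 _ ?_).trans (hb _ h3)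
    intro x hx
    obtain ⟨t, ht, rfl⟩ := mem_image.1 hx
    exact congrArg (fun z => z.2.1) (hS t ht)
  have c4 : ((S.image fun t => t.2.2).card : ℝ) ≤ D * (X : ℝ) ^ ε := by
    refine (hF u.2.2 h4.1 _ ?_).trans (hb _ h4)
    intro x hx
    obtain ⟨t, ht, rfl⟩ := mem_image.1 hx
    exact congrArg (fun z => z.2.2) (hS t ht)
  have hA : 0 ≤ D * (X : ℝ) ^ ε := by positivity
  calc (S.card : ℝ) ≤ (((S.image fun t => t.1.1).card : ℝ) * (S.image fun t => t.1.2).card) *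
        (((S.image fun t => t.2.1).card : ℝ) * (S.image fun t => t.2.2).card) := by
        exact_mod_cast hcard
    _ ≤ ((D * (X : ℝ) ^ ε) * (D * (X : ℝ) ^ ε)) * ((D * (X : ℝ) ^ ε) * (D * (X : ℝ) ^ ε)) := by
        gcongr
    _ = (D * (X : ℝ) ^ ε) ^ 4 := by ring

/-- the energy of `m`-fold products of two powers -/
theorem pwr2 (hTwo : StmtTwo) (hFac : StmtFac) (M m : ℕ) (ε : ℝ) (hε : 0 < ε) :
    ∃ D : ℝ, 0 < D ∧ ∀ k l : ℕ, 1 ≤ k → k ≤ M → 1 ≤ l → l ≤ M →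
    ∀ X f N B : ℕ, 1 ≤ X → 1 ≤ f → f ≤ X → 1 ≤ N → N ^ m ≤ X → 1 ≤ B → B ^ m ≤ X →
    ∀ Q : Finset (((Fin m → ℕ) × (Fin m → ℕ)) × ((Fin m → ℕ) × (Fin m → ℕ))),
    (∀ t ∈ Q, (∀ j, 1 ≤ t.1.1 j ∧ t.1.1 j ≤ N ∧ Nat.Coprime (t.1.1 j) f) ∧
      (∀ j, 1 ≤ t.1.2 j ∧ t.1.2 j ≤ N ∧ Nat.Coprime (t.1.2 j) f) ∧
      (∀ j, 1 ≤ t.2.1 j ∧ t.2.1 j ≤ B ∧ Nat.Coprime (t.2.1 j) f) ∧
      (∀ j, 1 ≤ t.2.2 j ∧ t.2.2 j ≤ B ∧ Nat.Coprime (t.2.2 j) f) ∧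
      (∏ j, (t.1.1 j : ZMod f)) ^ k * (∏ j, (t.2.1 j : ZMod f)) ^ l =
        (∏ j, (t.1.2 j : ZMod f)) ^ k * (∏ j, (t.2.2 j : ZMod f)) ^ l) →
    (Q.card : ℝ) ≤ D * (X : ℝ) ^ ε *
      ((N : ℝ) ^ m * (B : ℝ) ^ m * (1 + (N : ℝ) ^ m * (B : ℝ) ^ m / f)) := by
  classical
  obtain ⟨D1, hD1, H1⟩ := hTwo M (ε / 2) (by positivity)
  obtain ⟨D2, hD2, H2⟩ := hFac m (ε / 8) (by positivity)
  refine ⟨D1 * D2 ^ 4, by positivity, ?_⟩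
  intro k l hk hkM hl hlM X f N B hX hf hfX hN hNX hB hBX Q hQ
  have hX0 : (0 : ℝ) < X := by exact_mod_cast hX
  have hlo : ∀ (x : Fin m → ℕ) (C : ℕ), (∀ j, 1 ≤ x j ∧ x j ≤ C ∧ Nat.Coprime (x j) f) →
      1 ≤ ∏ j, x j ∧ ∏ j, x j ≤ C ^ m ∧ Nat.Coprime (∏ j, x j) f := fun x C h =>
    ⟨Pwr.one_le_prod _ fun j => (h j).1, Pwr.prod_le_pow _ fun j => (h j).2.1,
      Nat.Coprime.prod_left fun j _ => (h j).2.2⟩
  have hQ1 := H1 k l hk hkM hl hlM X f (N ^ m) (B ^ m) hX hf hfX (Nat.one_le_pow _ _ hN) hNX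
    (Nat.one_le_pow _ _ hB) hBX (Q.image psi) (by
      intro u hu
      obtain ⟨t, ht, rfl⟩ := mem_image.1 hu
      obtain ⟨a1, a2, a3, a4, a5⟩ := hQ t ht
      obtain ⟨b1, b2, b3⟩ := hlo _ _ a1
      obtain ⟨c1, c2, c3⟩ := hlo _ _ a2
      obtain ⟨d1, d2, d3⟩ := hlo _ _ a3
      obtain ⟨e1, e2, e3⟩ := hlo _ _ a4
      refine ⟨b1, b2, c1, c2, d1, d2, e1, e2, b3, c3, d3, e3, ?_⟩
      simp only [psi, Nat.cast_prod]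
      exact a5)
  have hfib : ∀ u ∈ Q.image psi, ((Q.filter fun t => psi t = u).card : ℝ) ≤
      (D2 * (X : ℝ) ^ (ε / 8)) ^ 4 := by
    intro u hu
    obtain ⟨t, ht, rfl⟩ := mem_image.1 hu
    obtain ⟨a1, a2, a3, a4, -⟩ := hQ t ht
    obtain ⟨b1, b2, -⟩ := hlo _ _ a1
    obtain ⟨c1, c2, -⟩ := hlo _ _ a2
    obtain ⟨d1, d2, -⟩ := hlo _ _ a3
    obtain ⟨e1, e2, -⟩ := hlo _ _ a4
    exact fibre_le (by positivity) hD2 H2 (psi t) ⟨b1, b2.trans hNX⟩ ⟨c1, c2.trans hNX⟩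
      ⟨d1, d2.trans hBX⟩ ⟨e1, e2.trans hBX⟩ _ fun t' ht' => (mem_filter.1 ht').2
  have hcard : (Q.card : ℝ) ≤ ((Q.image psi).card : ℝ) * (D2 * (X : ℝ) ^ (ε / 8)) ^ 4 := by
    rw [card_eq_sum_card_image psi Q, Nat.cast_sum]
    refine (sum_le_sum hfib).trans (le_of_eq ?_)
    rw [sum_const, nsmul_eq_mul]
  refine hcard.trans ?_
  have hpow : (X : ℝ) ^ (ε / 2) * ((X : ℝ) ^ (ε / 8)) ^ 4 = (X : ℝ) ^ ε := by
    rw [← Real.rpow_natCast, ← Real.rpow_mul hX0.le, ← Real.rpow_add hX0]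
    congr 1
    push_cast
    ring
  calc ((Q.image psi).card : ℝ) * (D2 * (X : ℝ) ^ (ε / 8)) ^ 4
      ≤ (D1 * (X : ℝ) ^ (ε / 2) * (((N ^ m : ℕ) : ℝ) * ((B ^ m : ℕ) : ℝ) *
          (1 + ((N ^ m : ℕ) : ℝ) * ((B ^ m : ℕ) : ℝ) / f))) * (D2 * (X : ℝ) ^ (ε / 8)) ^ 4 :=
        mul_le_mul_of_nonneg_right hQ1 (by positivity)
    _ = D1 * D2 ^ 4 * ((X : ℝ) ^ (ε / 2) * ((X : ℝ) ^ (ε / 8)) ^ 4) *
        ((N : ℝ) ^ m * (B : ℝ) ^ m * (1 + (N : ℝ) ^ m * (B : ℝ) ^ m / f)) := by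
        push_cast
        ring
    _ = _ := by rw [hpow]

section

variable {f : ℕ} [NeZero f]

theorem S_pow (N k m : ℕ) (χ : DirichletCharacter ℂ f) :
    S N k χ ^ m = ∑ u ∈ Fintype.piFinset (fun _ : Fin m => A f N),
      ∏ j, χ ((u j : ℕ) : ZMod f) ^ k := by
  rw [← Finset.prod_univ_sum (t := fun _ : Fin m => A f N)
    (f := fun _ u => χ ((u : ℕ) : ZMod f) ^ k)]
  rw [Finset.prod_const, Finset.card_univ, Fintype.card_fin]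
  rfl

theorem two_eq (N B k l m : ℕ) (χ : DirichletCharacter ℂ f) :
    F ((Fintype.piFinset fun _ : Fin m => A f N) ×ˢ (Fintype.piFinset fun _ : Fin m => A f B))
      (fun x => (∏ j, ((x.1 j : ℕ) : ZMod f)) ^ k * (∏ j, ((x.2 j : ℕ) : ZMod f)) ^ l) χ =
      S N k χ ^ m * S B l χ ^ m := by
  unfold F
  rw [S_pow, S_pow, Finset.sum_product, Finset.sum_mul_sum]
  refine Finset.sum_congr rfl fun x _ => Finset.sum_congr rfl fun u _ => ?_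
  rw [map_mul, map_pow, map_pow, map_prod, map_prod, Finset.prod_pow, Finset.prod_pow]

end

/-- the `2m`-th moment of a product of two character sums over powers -/
theorem moment2 (hTwo : StmtTwo) (hFac : StmtFac) (M m : ℕ) (ε : ℝ) (hε : 0 < ε) :
    ∃ D : ℝ, 1 ≤ D ∧ ∀ k l : ℕ, 1 ≤ k → k ≤ M → 1 ≤ l → l ≤ M →
    ∀ X f N B : ℕ, ∀ [NeZero f], 1 ≤ X → 1 ≤ f → f ≤ X → 1 ≤ N → N ^ m ≤ X → 1 ≤ B → B ^ m ≤ X →
    ∑ χ : DirichletCharacter ℂ f, (‖S N k χ‖ ^ 2 * ‖S B l χ‖ ^ 2) ^ m ≤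
      (f.totient : ℝ) * (D * (X : ℝ) ^ ε *
        ((N : ℝ) ^ m * (B : ℝ) ^ m * (1 + (N : ℝ) ^ m * (B : ℝ) ^ m / f))) := by
  classical
  obtain ⟨D, hD0, hD⟩ := pwr2 hTwo hFac M m ε hε
  refine ⟨1 + D, by linarith, ?_⟩
  intro k l hk hkM hl hlM X f N B _ hX hf hfX hN hNX hB hBX
  set Ω : Finset ((Fin m → ℕ) × (Fin m → ℕ)) :=
    (Fintype.piFinset fun _ : Fin m => A f N) ×ˢ (Fintype.piFinset fun _ : Fin m => A f B) with hΩ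
  set g : (Fin m → ℕ) × (Fin m → ℕ) → ZMod f := fun x =>
    (∏ j, ((x.1 j : ℕ) : ZMod f)) ^ k * (∏ j, ((x.2 j : ℕ) : ZMod f)) ^ l with hg
  have hunit : ∀ ω ∈ Ω, IsUnit (g ω) := by
    intro ω hω
    rw [hΩ, mem_product, Fintype.mem_piFinset, Fintype.mem_piFinset] at hω
    refine IsUnit.mul (IsUnit.pow _ ?_) (IsUnit.pow _ ?_)
    · rw [IsUnit.prod_iff]
      intro j _
      exact unit_of (mem_A.1 (hω.1 j)).2.2
    · rw [IsUnit.prod_iff]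
      intro j _
      exact unit_of (mem_A.1 (hω.2 j)).2.2
  have h1 : ∀ χ : DirichletCharacter ℂ f, (‖S N k χ‖ ^ 2 * ‖S B l χ‖ ^ 2) ^ m =
      ‖F Ω g χ‖ ^ 2 := by
    intro χ
    rw [hΩ, hg, two_eq, norm_mul, norm_pow, norm_pow]
    ring
  rw [Finset.sum_congr rfl fun χ _ => h1 χ, orth_eq Ω g hunit]
  refine mul_le_mul_of_nonneg_left ?_ (Nat.cast_nonneg _)
  set P := (Ω ×ˢ Ω).filter fun p => g p.1 = g p.2 with hPd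
  set φ : ((Fin m → ℕ) × (Fin m → ℕ)) × ((Fin m → ℕ) × (Fin m → ℕ)) →
      ((Fin m → ℕ) × (Fin m → ℕ)) × ((Fin m → ℕ) × (Fin m → ℕ)) :=
    fun p => ((p.1.1, p.2.1), (p.1.2, p.2.2)) with hφ
  have hinj : Function.Injective φ := by
    rintro ⟨⟨a, b⟩, ⟨c, d⟩⟩ ⟨⟨a', b'⟩, ⟨c', d'⟩⟩ hh
    simp only [hφ, Prod.mk.injEq] at hh ⊢
    tauto
  rw [← Finset.card_image_of_injective P hinj]
  refine (hD k l hk hkM hl hlM X f N B hX hf hfX hN hNX hB hBX (P.image φ) ?_).trans ?_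
  · intro t ht
    obtain ⟨p, hp, rfl⟩ := mem_image.1 ht
    rw [hPd, mem_filter, mem_product, hΩ, mem_product, mem_product, Fintype.mem_piFinset,
      Fintype.mem_piFinset, Fintype.mem_piFinset, Fintype.mem_piFinset] at hp
    obtain ⟨⟨⟨a1, a2⟩, ⟨a3, a4⟩⟩, a5⟩ := hp
    simp only [mem_A] at a1 a2 a3 a4
    exact ⟨a1, a3, a2, a4, a5⟩
  · have : 0 ≤ (X : ℝ) ^ ε *
        ((N : ℝ) ^ m * (B : ℝ) ^ m * (1 + (N : ℝ) ^ m * (B : ℝ) ^ m / f)) := by positivity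
    nlinarith

end Pool.Agent.U663.AB
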