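import Mathlib
import Pool.Agent.U663.AB.Mom

/-!
# The multiplicative energy of a product set of powers, with groups of at most two classes
-/

set_option autoImplicit false

namespace Pool.Agent.U663.AB

open Finset Pool.Agent.H785R2.ABC Pool.Agent.H705R2.ABC Pool.Agent.H705R2.ABC.JJ

theorem S_one {f : ℕ} [NeZero f] (l : ℕ) (χ : DirichletCharacter ℂ f) : ‖S 1 l χ‖ = 1 := by
  have h : A f 1 = {1} := by
    ext x
    rw [mem_A, mem_singleton]
    constructor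
    · rintro ⟨h1, h2, -⟩
      omega
    · rintro rfl
      exact ⟨le_rfl, le_rfl, Nat.coprime_one_left f⟩
  unfold S
  rw [h, sum_singleton, Nat.cast_one, map_one, one_pow, norm_one]

theorem sum_one {f : ℕ} [NeZero f] : ∑ _χ : DirichletCharacter ℂ f, (1 : ℝ) = f.totient := by
  rw [Finset.sum_const, nsmul_eq_mul, mul_one, Finset.card_univ,
    ← Nat.card_eq_fintype_card, DirichletCharacter.card_eq_totient_of_hasEnoughRootsOfUnity]

/-- the `2m`-th moment of a group of at most two classes -/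
theorem group (hTwo : StmtTwo) (hFac : StmtFac) (K m : ℕ) (hm : 1 ≤ m) (ε : ℝ) (hε : 0 < ε) :
    ∃ D : ℝ, 1 ≤ D ∧ ∀ X f : ℕ, ∀ [NeZero f], 1 ≤ X → 1 ≤ f → f ≤ X →
    ∀ N : Fin K → ℕ, (∀ i, 1 ≤ N i) → ∏ i, N i ≤ X → ∀ G : Finset (Fin K), G.card ≤ 2 →
    ∑ χ : DirichletCharacter ℂ f, (∏ i ∈ G, ‖S (N i) ((i : ℕ) + 1) χ‖ ^ 2) ^ m ≤
      (f.totient : ℝ) * (D * (X : ℝ) ^ ε *
        ((∏ i ∈ G, (N i : ℝ)) ^ m * (1 + (∏ i ∈ G, (N i : ℝ)) ^ m / f))) := by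
  classical
  have hm0 : (0 : ℝ) < m := by exact_mod_cast hm
  obtain ⟨D, hD1, hD⟩ := moment2 hTwo hFac (K + 1) m (ε / m) (by positivity)
  refine ⟨D, hD1, ?_⟩
  intro X f _ hX hf hfX N hN hNX G hG
  have hX1 : (1 : ℝ) ≤ X := by exact_mod_cast hX
  have hX0 : (0 : ℝ) < X := by linarith
  have hXm1 : 1 ≤ X ^ m := Nat.one_le_pow _ _ hX
  have hXle : X ≤ X ^ m := by
    calc X = X ^ 1 := (pow_one _).symm
      _ ≤ X ^ m := Nat.pow_le_pow_right hX hm
  have hNi : ∀ i, (N i) ^ m ≤ X ^ m := fun i =>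
    Nat.pow_le_pow_left ((Finset.single_le_prod' (f := N) (fun j _ => hN j) (mem_univ i)).trans
      hNX) m
  have hXX : ((X ^ m : ℕ) : ℝ) ^ (ε / m) = (X : ℝ) ^ ε := by
    rw [Nat.cast_pow, ← Real.rpow_natCast, ← Real.rpow_mul hX0.le]
    congr 1
    field_simp
  have hcases : G.card = 0 ∨ G.card = 1 ∨ G.card = 2 := by omega
  rcases hcases with h0 | h1 | h2
  · rw [Finset.card_eq_zero] at h0
    subst h0
    simp only [Finset.prod_empty, one_pow]
    rw [sum_one]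
    have e1 : 1 ≤ D * (X : ℝ) ^ ε := by
      have := Real.one_le_rpow hX1 hε.le
      nlinarith
    have e2 : (1 : ℝ) ≤ 1 * (1 + 1 / (f : ℝ)) := by
      have : (0 : ℝ) ≤ 1 / (f : ℝ) := by positivity
      linarith
    have e3 : (1 : ℝ) ≤ D * (X : ℝ) ^ ε * (1 * (1 + 1 / (f : ℝ))) := by nlinarith
    exact le_mul_of_one_le_right (Nat.cast_nonneg _) e3
  · obtain ⟨a, rfl⟩ := Finset.card_eq_one.1 h1
    have ha := a.2
    have := hD ((a : ℕ) + 1) 1 (by omega) (by omega) le_rfl (by omega) (X ^ m) f (N a) 1 hXm1 hf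
      (hfX.trans hXle) (hN a) (hNi a) le_rfl (by simpa using hXm1)
    simp only [S_one, one_pow, mul_one, Nat.cast_one] at this
    simp only [Finset.prod_singleton]
    rw [← hXX]
    exact this
  · obtain ⟨a, b, hab, rfl⟩ := Finset.card_eq_two.1 h2
    have ha := a.2
    have hb := b.2
    have := hD ((a : ℕ) + 1) ((b : ℕ) + 1) (by omega) (by omega) (by omega) (by omega) (X ^ m) f
      (N a) (N b) hXm1 hf (hfX.trans hXle) (hN a) (hNi a) (hN b) (hNi b)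
    simp only [Finset.prod_pair hab]
    rw [← hXX]
    simp only [mul_pow ((N a : ℝ)) ((N b : ℝ))]
    exact this

/-- the factor of the groups -/
noncomputable def gf {K h : ℕ} (G : Fin h → Finset (Fin K)) (m : Fin h → ℕ) (N : Fin K → ℝ)
    (f : ℝ) : ℝ :=
  ∏ j, (1 + (∏ i ∈ G j, N i) ^ m j / f) ^ (1 / (m j : ℝ))

/-- an admissible scheme of groups -/
structure Adm {K h : ℕ} (M : ℕ) (G : Fin h → Finset (Fin K)) (m : Fin h → ℕ) : Prop where
  one_le : ∀ j, 1 ≤ m j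
  le : ∀ j, m j ≤ M
  card : ∀ j, (G j).card ≤ 2
  disj : ∀ i j, i ≠ j → Disjoint (G i) (G j)
  sum : ∑ j, 1 / (m j : ℝ) = 1

/-- the multiplicative energy of a product set of powers -/
def StmtJ2 : Prop :=
  ∀ K h M : ℕ, ∀ ε : ℝ, 0 < ε → ∃ D : ℝ, 0 < D ∧ ∀ X f : ℕ, 1 ≤ X → 1 ≤ f → f ≤ X →
    ∀ N : Fin K → ℕ, (∀ i, 1 ≤ N i) → ∏ i, N i ≤ X → ∀ c : ZMod f, IsUnit c →
    ∀ (G : Fin h → Finset (Fin K)) (m : Fin h → ℕ), Adm M G m →
    ∀ Q : Finset ((Fin K → ℕ) × (Fin K → ℕ)),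
    (∀ t ∈ Q, (∀ i, 1 ≤ t.1 i ∧ t.1 i ≤ N i ∧ Nat.Coprime (t.1 i) f) ∧
      (∀ i, 1 ≤ t.2 i ∧ t.2 i ≤ N i ∧ Nat.Coprime (t.2 i) f) ∧
      ∏ i, (t.1 i : ZMod f) ^ ((i : ℕ) + 1) = c * ∏ i, (t.2 i : ZMod f) ^ ((i : ℕ) + 1)) →
    (Q.card : ℝ) ≤ D * (X : ℝ) ^ ε * ((∏ i, (N i : ℝ)) *
      (∏ i ∈ (univ.biUnion G)ᶜ, (N i : ℝ)) * gf G m (fun i => N i) f)

theorem stmtJ2_of (hTwo : StmtTwo) (hFac : StmtFac) : StmtJ2 := by
  classical
  intro K h M ε hε
  choose D hD1 hD using fun m : ℕ => group hTwo hFac K (m + 1) (by omega) ε hε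
  set D0 : ℝ := 1 + ∑ m ∈ range (M + 1), D m with hD0
  have hD0pos : 0 < D0 := by
    have : 0 ≤ ∑ m ∈ range (M + 1), D m := sum_nonneg fun m _ => by linarith [hD1 m]
    linarith
  have hDle : ∀ m, m ≤ M → D m ≤ D0 := by
    intro m hmM
    have := single_le_sum (f := D) (s := range (M + 1)) (fun m _ => by linarith [hD1 m])
      (mem_range.2 (by omega : m < M + 1))
    linarith
  refine ⟨D0, hD0pos, ?_⟩
  intro X f hX hf hfX N hN hNX c hc G m hA Q hQ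
  have : NeZero f := ⟨by omega⟩
  have hX1 : (1 : ℝ) ≤ X := by exact_mod_cast hX
  have hXp : (0 : ℝ) < X := by linarith
  have hfp : (0 : ℝ) < f := by exact_mod_cast hf
  have hφ : (0 : ℝ) < f.totient := by exact_mod_cast Nat.totient_pos.2 (by omega)
  set Ω : Finset (Fin K → ℕ) := Fintype.piFinset fun i => A f (N i) with hΩ
  set g : (Fin K → ℕ) → ZMod f := fun x => ∏ i, ((x i : ℕ) : ZMod f) ^ ((i : ℕ) + 1) with hg
  have hunit : ∀ ω ∈ Ω, IsUnit (g ω) := by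
    intro ω hω
    rw [hΩ, Fintype.mem_piFinset] at hω
    rw [hg]
    simp only
    rw [IsUnit.prod_iff]
    intro i _
    exact (unit_of (mem_A.1 (hω i)).2.2).pow _
  have hQ1 : Q ⊆ (Ω ×ˢ Ω).filter fun p => g p.1 = c * g p.2 := by
    intro t ht
    obtain ⟨a1, a2, a3⟩ := hQ t ht
    rw [mem_filter, mem_product, hΩ, Fintype.mem_piFinset, Fintype.mem_piFinset]
    exact ⟨⟨fun i => mem_A.2 (a1 i), fun i => mem_A.2 (a2 i)⟩, a3⟩
  have h1 : (f.totient : ℝ) * Q.card ≤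
      ∑ χ : DirichletCharacter ℂ f, ∏ i, ‖S (N i) ((i : ℕ) + 1) χ‖ ^ 2 := by
    have e1 := orth_le Ω g hunit c hc
    have e2 : ∀ χ : DirichletCharacter ℂ f, ‖F Ω g χ‖ ^ 2 =
        ∏ i, ‖S (N i) ((i : ℕ) + 1) χ‖ ^ 2 := by
      intro χ
      rw [hΩ, hg, prod_eq, norm_prod, Finset.prod_pow]
    rw [Finset.sum_congr rfl fun χ _ => e2 χ] at e1
    refine le_trans ?_ e1
    exact mul_le_mul_of_nonneg_left (by exact_mod_cast card_le_card hQ1) hφ.le
  set U : Finset (Fin K) := univ.biUnion G with hU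
  have hpU : ∀ a : Fin K → ℝ, ∏ i ∈ U, a i = ∏ j, ∏ i ∈ G j, a i := fun a => by
    rw [hU, Finset.prod_biUnion]
    intro i _ j _ hij
    exact hA.disj i j hij
  set P : Fin h → ℝ := fun j => ∏ i ∈ G j, (N i : ℝ) with hP
  have hP0 : ∀ j, 0 < P j := fun j => prod_pos fun i _ => by exact_mod_cast hN i
  set B : Fin h → ℝ := fun j => D0 * (X : ℝ) ^ ε * (P j ^ m j * (1 + P j ^ m j / f)) with hB
  have hC : 0 < D0 * (X : ℝ) ^ ε := by positivity
  have hB0 : ∀ j, 0 < B j := fun j => by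
    have := hP0 j
    simp only [hB]
    positivity
  have hmom : ∀ j, ∑ χ : DirichletCharacter ℂ f,
      (∏ i ∈ G j, ‖S (N i) ((i : ℕ) + 1) χ‖ ^ 2) ^ m j ≤ (f.totient : ℝ) * B j := by
    intro j
    obtain ⟨n, hn⟩ : ∃ n, m j = n + 1 := ⟨m j - 1, by have := hA.one_le j; omega⟩
    have h2 := hD n X f hX hf hfX N hN hNX (G j) (hA.card j)
    rw [hn]
    refine h2.trans (mul_le_mul_of_nonneg_left ?_ hφ.le)
    simp only [hB, hn]
    have h3 : 0 ≤ P j ^ (n + 1) * (1 + P j ^ (n + 1) / f) := by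
      have := hP0 j
      positivity
    refine mul_le_mul_of_nonneg_right ?_ h3
    exact mul_le_mul_of_nonneg_right (hDle n (by have := hA.le j; omega)) (by positivity)
  have hH := hoelder univ (fun j => 1 / (m j : ℝ)) B
    (fun j (χ : DirichletCharacter ℂ f) => (∏ i ∈ G j, ‖S (N i) ((i : ℕ) + 1) χ‖ ^ 2) ^ m j)
    (fun j _ => by positivity) hA.sum (fun j _ => hB0 j) (fun j _ χ => by positivity)
    (f.totient : ℝ) (fun j _ => hmom j)
  have hroot : ∀ (a : ℝ) (j : Fin h), 0 ≤ a → (a ^ m j) ^ (1 / (m j : ℝ)) = a := by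
    intro a j ha
    have hmj : (m j : ℝ) ≠ 0 := by
      have := hA.one_le j
      positivity
    rw [← Real.rpow_natCast, ← Real.rpow_mul ha, mul_one_div_cancel hmj, Real.rpow_one]
  have e3 : ∏ j, B j ^ (1 / (m j : ℝ)) =
      D0 * (X : ℝ) ^ ε * ((∏ i ∈ U, (N i : ℝ)) * gf G m (fun i => N i) f) := by
    have e4 : ∀ j, B j ^ (1 / (m j : ℝ)) = (D0 * (X : ℝ) ^ ε) ^ (1 / (m j : ℝ)) *
        (P j * (1 + P j ^ m j / f) ^ (1 / (m j : ℝ))) := by
      intro j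
      have := hP0 j
      simp only [hB]
      have q1 : (0 : ℝ) ≤ P j ^ m j := by positivity
      have q2 : (0 : ℝ) ≤ 1 + P j ^ m j / f := by positivity
      rw [Real.mul_rpow hC.le (mul_nonneg q1 q2), Real.mul_rpow q1 q2, hroot _ _ this.le]
    rw [Finset.prod_congr rfl fun j _ => e4 j, Finset.prod_mul_distrib, Finset.prod_mul_distrib,
      ← Real.rpow_sum_of_pos hC, hA.sum, Real.rpow_one, hpU]
    rfl
  have hle : ∑ χ : DirichletCharacter ℂ f, ∏ i, ‖S (N i) ((i : ℕ) + 1) χ‖ ^ 2 ≤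
      (f.totient : ℝ) * (D0 * (X : ℝ) ^ ε * ((∏ i, (N i : ℝ)) * (∏ i ∈ Uᶜ, (N i : ℝ)) *
        gf G m (fun i => N i) f)) := by
    have h5 : ∀ χ : DirichletCharacter ℂ f, ∏ i, ‖S (N i) ((i : ℕ) + 1) χ‖ ^ 2 ≤
        (∏ i ∈ Uᶜ, (N i : ℝ)) ^ 2 * ∏ j, ((∏ i ∈ G j, ‖S (N i) ((i : ℕ) + 1) χ‖ ^ 2) ^ m j) ^
          (1 / (m j : ℝ)) := by
      intro χ
      rw [← Finset.prod_mul_prod_compl U, hpU, mul_comm]
      refine mul_le_mul ?_ (le_of_eq ?_) (Finset.prod_nonneg fun j _ =>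
        Finset.prod_nonneg fun i _ => by positivity) (by positivity)
      · rw [← Finset.prod_pow]
        refine Finset.prod_le_prod (fun i _ => by positivity) fun i _ => ?_
        exact pow_le_pow_left₀ (norm_nonneg _) (S_norm_le _ _ _) 2
      · refine Finset.prod_congr rfl fun j _ => ?_
        rw [hroot _ _ (Finset.prod_nonneg fun i _ => by positivity)]
    refine (Finset.sum_le_sum fun χ _ => h5 χ).trans ?_
    rw [← Finset.mul_sum]
    refine (mul_le_mul_of_nonneg_left hH (by positivity)).trans (le_of_eq ?_)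
    rw [e3, ← Finset.prod_mul_prod_compl U (fun i => (N i : ℝ))]
    ring
  exact le_of_mul_le_mul_left (h1.trans hle) hφ

end Pool.Agent.U663.AB
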