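import Mathlib
import Pool.Agent.H705R2.ABC.Est
import Pool.Agent.U663.AB.Hol

/-!
# The residue class bound for cells with the energy of groups (after module EST of the library)
-/

set_option autoImplicit false

namespace Pool.Agent.U663.AB

open Finset Pool.Agent.H785R2.ABC Pool.Agent.H785R2.ABC.EC Pool.Agent.H705R2.ABC
  Pool.Agent.H705R2.ABC.Est

/-- homogeneity of the factor of the groups -/
theorem gf_scale {K h M : ℕ} {G : Fin h → Finset (Fin K)} {m : Fin h → ℕ} (hA : Adm M G m)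
    (k f pr : ℝ) (R : Fin K → ℝ) (hk : 1 ≤ k) (hf : 0 < f) (hpr : 0 < pr) (hR : ∀ i, 0 ≤ R i)
    (hfp : 1 / f ≤ k / pr) :
    gf G m (fun i => k * R i) f ≤ k ^ (3 * h) * gf G m R pr := by
  unfold gf
  have h1 : k ^ (3 * h) = ∏ _j : Fin h, k ^ 3 := by
    rw [prod_const, card_univ, Fintype.card_fin, ← pow_mul]
  rw [h1, ← prod_mul_distrib]
  have hk0 : 0 < k := by linarith
  refine prod_le_prod (fun j _ => ?_) fun j _ => ?_
  · have : 0 ≤ ∏ i ∈ G j, k * R i := prod_nonneg fun i _ => mul_nonneg hk0.le (hR i)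
    positivity
  have hm := hA.one_le j
  have hm0 : (0 : ℝ) < m j := by exact_mod_cast hm
  set P : ℝ := ∏ i ∈ G j, R i with hP
  have hP0 : 0 ≤ P := prod_nonneg fun i _ => hR i
  have e1 : ∏ i ∈ G j, k * R i ≤ k ^ 2 * P := by
    rw [prod_mul_distrib, prod_const]
    exact mul_le_mul_of_nonneg_right (pow_le_pow_right₀ hk (hA.card j)) hP0
  have e0 : 0 ≤ ∏ i ∈ G j, k * R i := prod_nonneg fun i _ => mul_nonneg hk0.le (hR i)
  have e2 : (∏ i ∈ G j, k * R i) ^ m j / f ≤ k ^ (3 * m j) * (P ^ m j / pr) := by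
    calc (∏ i ∈ G j, k * R i) ^ m j / f = (∏ i ∈ G j, k * R i) ^ m j * (1 / f) := by ring
      _ ≤ (k ^ 2 * P) ^ m j * (k / pr) :=
          mul_le_mul (pow_le_pow_left₀ e0 e1 _) hfp (by positivity) (by positivity)
      _ = k ^ (2 * m j + 1) * (P ^ m j / pr) := by
          rw [mul_pow, ← pow_mul]
          ring
      _ ≤ k ^ (3 * m j) * (P ^ m j / pr) :=
          mul_le_mul_of_nonneg_right (pow_le_pow_right₀ hk (by omega)) (by positivity)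
  have e3 : 1 + (∏ i ∈ G j, k * R i) ^ m j / f ≤ k ^ (3 * m j) * (1 + P ^ m j / pr) := by
    have : (1 : ℝ) ≤ k ^ (3 * m j) := one_le_pow₀ hk
    rw [mul_add, mul_one]
    linarith
  calc (1 + (∏ i ∈ G j, k * R i) ^ m j / f) ^ (1 / (m j : ℝ)) ≤
        (k ^ (3 * m j) * (1 + P ^ m j / pr)) ^ (1 / (m j : ℝ)) :=
        Real.rpow_le_rpow (by positivity) e3 (by positivity)
    _ = k ^ 3 * (1 + P ^ m j / pr) ^ (1 / (m j : ℝ)) := by
        rw [Real.mul_rpow (by positivity) (by positivity), ← Real.rpow_natCast,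
          ← Real.rpow_mul hk0.le]
        congr 1
        rw [← Real.rpow_natCast k 3]
        congr 1
        push_cast
        field_simp

/-- the factor of side `j` in the bound `EST2` -/
noncomputable def side2 (K : ℕ) (s : ℕ × ℕ × ℕ) (r j : Fin 3) (F : Finset (Fin (K + 1))) {h : ℕ}
    (G : Fin h → Finset (Fin K)) (m : Fin h → ℕ) : ℝ :=
  (rd K (num s j) univ : ℝ) * (rd K (num s j) {Fin.last K} *
    ∏ i ∈ (univ.biUnion G)ᶜ, (rd K (num s j) {i.castSucc} : ℝ)) *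
      gf G m (fun i => (rd K (num s j) {i.castSucc} : ℝ)) (part K (num s r) F)

theorem gf_nonneg {K h : ℕ} (G : Fin h → Finset (Fin K)) (m : Fin h → ℕ) (N : Fin K → ℝ) (f : ℝ)
    (hN : ∀ i, 0 ≤ N i) (hf : 0 ≤ f) : 0 ≤ gf G m N f := by
  unfold gf
  refine prod_nonneg fun j _ => ?_
  have : 0 ≤ ∏ i ∈ G j, N i := prod_nonneg fun i _ => hN i
  positivity

theorem side2_nonneg (K : ℕ) (s : ℕ × ℕ × ℕ) (r j : Fin 3) (F : Finset (Fin (K + 1))) {h : ℕ}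
    (G : Fin h → Finset (Fin K)) (m : Fin h → ℕ) : 0 ≤ side2 K s r j F G m := by
  unfold side2
  have := gf_nonneg G m (fun i => (rd K (num s j) {i.castSucc} : ℝ)) (part K (num s r) F)
    (fun i => by positivity) (by positivity)
  have h2 : 0 ≤ ∏ i ∈ (univ.biUnion G)ᶜ, (rd K (num s j) {i.castSucc} : ℝ) :=
    prod_nonneg fun i _ => by positivity
  positivity

/-- the body of `StmtJ2` -/
def J2Body (K h M : ℕ) (D ε : ℝ) : Prop :=
  ∀ X f : ℕ, 1 ≤ X → 1 ≤ f → f ≤ X →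
    ∀ N : Fin K → ℕ, (∀ i, 1 ≤ N i) → ∏ i, N i ≤ X → ∀ c : ZMod f, IsUnit c →
    ∀ (G : Fin h → Finset (Fin K)) (m : Fin h → ℕ), Adm M G m →
    ∀ Q : Finset ((Fin K → ℕ) × (Fin K → ℕ)),
    (∀ t ∈ Q, (∀ i, 1 ≤ t.1 i ∧ t.1 i ≤ N i ∧ Nat.Coprime (t.1 i) f) ∧
      (∀ i, 1 ≤ t.2 i ∧ t.2 i ≤ N i ∧ Nat.Coprime (t.2 i) f) ∧
      ∏ i, (t.1 i : ZMod f) ^ ((i : ℕ) + 1) = c * ∏ i, (t.2 i : ZMod f) ^ ((i : ℕ) + 1)) →
    (Q.card : ℝ) ≤ D * (X : ℝ) ^ ε * ((∏ i, (N i : ℝ)) *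
      (∏ i ∈ (univ.biUnion G)ᶜ, (N i : ℝ)) * gf G m (fun i => N i) f)

theorem energy2 (hF : Basics) {K h M : ℕ} {T : Finset (ℕ × ℕ × ℕ)} (hT : Cell K T) {s : ℕ × ℕ × ℕ}
    (hs : s ∈ T) {j r : Fin 3} (hjr : j ≠ r) (F : Finset (Fin (K + 1))) {f : ℕ} {D4 DJ e : ℝ}
    (hD4 : 0 ≤ D4) (hDJ : 0 ≤ DJ)
    (h4 : ∀ X : ℕ, 1 ≤ X → ∀ R : ℝ, 0 ≤ R →
      (((Icc 1 X).filter fun d => (rad d : ℝ) ≤ R).card : ℝ) ≤ D4 * (X : ℝ) ^ e * R)
    (hJ : J2Body K h M DJ e) (Gp : Fin h → Finset (Fin K)) (mp : Fin h → ℕ)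
    (hA : Adm M Gp mp) (hf : ∃ t ∈ T, part K (num t r) F = f)
    (Q : Finset (ℕ × ℕ))
    (hQ : ∀ x ∈ Q, (x.1 : ℤ) % f = (x.2 : ℤ) % f ∧
      (∃ t ∈ T, part K (num t r) F = f ∧ num t j = x.1) ∧
      (∃ t ∈ T, part K (num t r) F = f ∧ num t j = x.2)) :
    (Q.card : ℝ) ≤ (D4 ^ 2 * DJ * ((2 : ℝ) ^ (K + 1)) ^ (2 * K + 3 * h + 2) *
      ((((2 : ℝ) ^ (K + 1)) ^ e) ^ 2 * (((2 : ℝ) ^ (K + 1)) ^ (K + 1)) ^ e)) *
      (s.2.2 : ℝ) ^ (3 * e) * side2 K s r j F Gp mp := by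
  classical
  obtain ⟨t0, ht0, hft0⟩ := hf
  have hk : (1 : ℝ) ≤ (2 : ℝ) ^ (K + 1) := one_le_pow₀ (by norm_num)
  have hkN : 1 ≤ 2 ^ (K + 1) := Nat.one_le_two_pow
  have hf1 : 1 ≤ f := hft0 ▸ hF.part_pos K _ F
  have hc1 : 1 ≤ s.2.2 := (hT.abc s hs).2.2.1
  have hX1 : 1 ≤ 2 ^ (K + 1) * s.2.2 := Nat.mul_pos hkN hc1
  have hfX : f ≤ 2 ^ (K + 1) * s.2.2 := by
    have h1 := hF.part_dvd K (num t0 r) F (num_pos (hT.abc t0 ht0) r)
    rw [hft0] at h1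
    exact (Nat.le_of_dvd (num_pos (hT.abc t0 ht0) r) h1).trans (num_le_X hF hT ht0 hs r)
  set kap : ℕ := 2 ^ (K + 1) with hkap
  set X2 : ℕ := kap ^ (K + 1) * s.2.2 with hX2
  have hX12 : kap * s.2.2 ≤ X2 := by
    rw [hX2]
    apply Nat.mul_le_mul_right
    calc kap = kap ^ 1 := (pow_one _).symm
      _ ≤ kap ^ (K + 1) := Nat.pow_le_pow_right hkN (by omega)
  set N : Fin K → ℕ := fun i => kap * rd K (num s j) {i.castSucc} with hN
  have hN1 : ∀ i, 1 ≤ N i := fun i => Nat.mul_pos hkN (hF.rd_pos _ _ _)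
  set R' : ℕ := ∏ i : Fin K, rd K (num s j) {i.castSucc} with hR'
  have hsj1 : 1 ≤ num s j := num_pos (hT.abc s hs) j
  have hprodN : ∏ i, N i = kap ^ K * R' := by
    rw [hN, prod_mul_distrib, prod_const, card_univ, Fintype.card_fin]
  have hRU : R' * rd K (num s j) {Fin.last K} = rd K (num s j) univ := rd_split hF K _
  have hR1 : 1 ≤ R' := Nat.pos_of_ne_zero (by
    intro h
    rw [h, zero_mul] at hRU
    have := hF.rd_pos K (num s j) univ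
    omega)
  have hl1 : 1 ≤ rd K (num s j) {Fin.last K} := hF.rd_pos _ _ _
  have hU1 : 1 ≤ rd K (num s j) univ := hF.rd_pos _ _ _
  have hRU' : R' ≤ rd K (num s j) univ := by rw [← hRU]; exact Nat.le_mul_of_pos_right _ hl1
  have hprodX : ∏ i, N i ≤ X2 := by
    rw [hprodN, hX2]
    apply Nat.mul_le_mul (Nat.pow_le_pow_right hkN (by omega))
    calc R' ≤ rd K (num s j) univ := hRU'
      _ ≤ num s j := Nat.le_of_dvd hsj1 (rd_dvd_self hF K _ hsj1 univ)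
      _ ≤ s.2.2 := num_le (hT.abc s hs) j
  set l : ℝ := (rd K (num s j) {Fin.last K} : ℝ) with hl
  set U : ℝ := (rd K (num s j) univ : ℝ) with hU
  set pr : ℝ := (part K (num s r) F : ℝ) with hpr
  have hpr1 : 1 ≤ pr := by rw [hpr]; exact_mod_cast hF.part_pos K _ F
  have hprf : pr ≤ 2 ^ (K + 1) * f := by
    rw [hpr, ← hft0]
    exact_mod_cast hT.part_le s hs t0 ht0 r F
  have hfR : (1 : ℝ) ≤ f := by exact_mod_cast hf1
  -- the set of possible last parts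
  set Y : Finset ℕ := (Icc 1 (kap * s.2.2)).filter fun d => (rad d : ℝ) ≤ 2 ^ (K + 1) * l with hY
  have hYcard : (Y.card : ℝ) ≤ D4 * ((kap * s.2.2 : ℕ) : ℝ) ^ e * (2 ^ (K + 1) * l) :=
    h4 _ hX1 _ (by positivity)
  -- facts on members
  have hmem : ∀ n : ℕ, (∃ t ∈ T, part K (num t r) F = f ∧ num t j = n) →
      1 ≤ n ∧ Nat.Coprime n f ∧ part K n {Fin.last K} ∈ Y ∧
      (∀ i : Fin K, 1 ≤ rd K n {i.castSucc} ∧ rd K n {i.castSucc} ≤ N i ∧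
        Nat.Coprime (rd K n {i.castSucc}) f) ∧ Nat.Coprime (part K n {Fin.last K}) f := by
    rintro n ⟨t, ht, htf, rfl⟩
    have hn := num_pos (hT.abc t ht) j
    have hco : Nat.Coprime (num t j) f := by
      have g1 := hF.part_dvd K (num t r) F (num_pos (hT.abc t ht) r)
      rw [htf] at g1
      exact Nat.Coprime.coprime_dvd_right g1 (num_coprime (hT.abc t ht) hjr)
    refine ⟨hn, hco, ?_, ?_, ?_⟩
    · rw [hY, mem_filter, mem_Icc]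
      refine ⟨⟨hF.part_pos K _ _, (Nat.le_of_dvd hn (hF.part_dvd K _ _ hn)).trans
        (num_le_X hF hT ht hs j)⟩, ?_⟩
      rw [hF.rad_part K _ _ hn, hl]
      exact_mod_cast hT.rd_le t ht s hs j {Fin.last K}
    · intro i
      refine ⟨hF.rd_pos _ _ _, hT.rd_le t ht s hs j _, ?_⟩
      exact Nat.Coprime.coprime_dvd_left (rd_dvd_self hF K _ hn _) hco
    · exact Nat.Coprime.coprime_dvd_left (hF.part_dvd K _ _ hn) hco
  set W : ℝ := DJ * (X2 : ℝ) ^ e *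
      ((∏ i, (N i : ℝ)) * (∏ i ∈ (univ.biUnion Gp)ᶜ, (N i : ℝ)) *
        gf Gp mp (fun i => N i) f) with hW
  have hgf0 : 0 ≤ gf Gp mp (fun i => (N i : ℝ)) (f : ℝ) :=
    gf_nonneg _ _ _ _ (fun i => Nat.cast_nonneg _) (Nat.cast_nonneg _)
  have hW0 : 0 ≤ W := by rw [hW]; positivity
  have hfib : ∀ z ∈ Y ×ˢ Y, ((Q.filter fun x => (part K x.1 {Fin.last K}, part K x.2 {Fin.last K}) = z).card : ℝ)
      ≤ W := by
    intro z _
    set Qz := Q.filter fun x => (part K x.1 {Fin.last K}, part K x.2 {Fin.last K}) = z with hQz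
    rcases Qz.eq_empty_or_nonempty with h0 | ⟨x0, hx0⟩
    · rw [h0]; simpa using hW0
    have hQzm : ∀ x ∈ Qz, x ∈ Q ∧ part K x.1 {Fin.last K} = z.1 ∧ part K x.2 {Fin.last K} = z.2 := by
      intro x hx
      rw [hQz, mem_filter] at hx
      exact ⟨hx.1, congrArg Prod.fst hx.2, congrArg Prod.snd hx.2⟩
    obtain ⟨hx0Q, hx01, hx02⟩ := hQzm x0 hx0
    have hz1 : Nat.Coprime z.1 f := by
      rw [← hx01]; exact (hmem _ (hQ x0 hx0Q).2.1).2.2.2.2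
    have hz2 : Nat.Coprime z.2 f := by
      rw [← hx02]; exact (hmem _ (hQ x0 hx0Q).2.2).2.2.2.2
    set G : ℕ × ℕ → (Fin K → ℕ) × (Fin K → ℕ) :=
      fun x => (fun i => rd K x.1 {i.castSucc}, fun i => rd K x.2 {i.castSucc}) with hG
    have hinj : Set.InjOn G Qz := by
      intro x hx x' hx' hxx
      obtain ⟨hxQ, hx1, hx2⟩ := hQzm x hx
      obtain ⟨hxQ', hx1', hx2'⟩ := hQzm x' hx'
      have e1 := congrArg Prod.fst hxx
      have e2 := congrArg Prod.snd hxx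
      simp only [hG] at e1 e2
      apply Prod.ext
      · rw [fact hF K x.1 (hmem _ (hQ x hxQ).2.1).1, fact hF K x'.1 (hmem _ (hQ x' hxQ').2.1).1,
          hx1, hx1']
        congr 1
        apply prod_congr rfl
        intro i _
        rw [congrFun e1 i]
      · rw [fact hF K x.2 (hmem _ (hQ x hxQ).2.2).1, fact hF K x'.2 (hmem _ (hQ x' hxQ').2.2).1,
          hx2, hx2']
        congr 1
        apply prod_congr rfl
        intro i _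
        rw [congrFun e2 i]
    rw [← card_image_of_injOn hinj]
    set u := ZMod.unitOfCoprime z.1 hz1 with hu
    set u' := ZMod.unitOfCoprime z.2 hz2 with hu'
    apply hJ X2 f (hX1.trans hX12) hf1 (hfX.trans hX12) N hN1 hprodX
      ((u' : ZMod f) * ((u⁻¹ : (ZMod f)ˣ) : ZMod f)) (u'.isUnit.mul (u⁻¹).isUnit) Gp mp hA
    intro y hy
    obtain ⟨x, hx, rfl⟩ := mem_image.1 hy
    obtain ⟨hxQ, hx1, hx2⟩ := hQzm x hx
    obtain ⟨hcong, hm1, hm2⟩ := hQ x hxQ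
    obtain ⟨hp1, -, -, hr1, -⟩ := hmem _ hm1
    obtain ⟨hp2, -, -, hr2, -⟩ := hmem _ hm2
    refine ⟨hr1, hr2, ?_⟩
    have h5 : ((x.1 : ℤ) : ZMod f) = ((x.2 : ℤ) : ZMod f) :=
      (ZMod.intCast_eq_intCast_iff' _ _ f).2 hcong
    have h6 : (x.1 : ZMod f) = (x.2 : ZMod f) := by exact_mod_cast h5
    rw [fact hF K x.1 hp1, fact hF K x.2 hp2, hx1, hx2] at h6
    push_cast at h6
    have hu1 : (u : ZMod f) = (z.1 : ZMod f) := ZMod.coe_unitOfCoprime _ _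
    have hu2 : (u' : ZMod f) = (z.2 : ZMod f) := ZMod.coe_unitOfCoprime _ _
    rw [← hu1, ← hu2] at h6
    show ∏ i : Fin K, ((rd K x.1 {i.castSucc} : ℕ) : ZMod f) ^ ((i : ℕ) + 1) =
      (u' : ZMod f) * ((u⁻¹ : (ZMod f)ˣ) : ZMod f) * ∏ i : Fin K, ((rd K x.2 {i.castSucc} : ℕ) : ZMod f) ^ ((i : ℕ) + 1)
    have h7 : (u : ZMod f) * ((u⁻¹ : (ZMod f)ˣ) : ZMod f) = 1 := Units.mul_inv u
    calc ∏ i : Fin K, ((rd K x.1 {i.castSucc} : ℕ) : ZMod f) ^ ((i : ℕ) + 1)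
        = (∏ i : Fin K, ((rd K x.1 {i.castSucc} : ℕ) : ZMod f) ^ ((i : ℕ) + 1)) * (u : ZMod f) *
            ((u⁻¹ : (ZMod f)ˣ) : ZMod f) := by rw [mul_assoc, h7, mul_one]
      _ = _ := by rw [h6]; ring
  have hsum : Q.card = ∑ z ∈ Y ×ˢ Y,
      (Q.filter fun x => (part K x.1 {Fin.last K}, part K x.2 {Fin.last K}) = z).card := by
    apply card_eq_sum_card_fiberwise
    intro x hx
    have hx' : x ∈ Q := hx
    have h5 := (hmem _ (hQ x hx').2.1).2.2.1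
    have h6 := (hmem _ (hQ x hx').2.2).2.2.1
    show (part K x.1 {Fin.last K}, part K x.2 {Fin.last K}) ∈ ((Y ×ˢ Y : Finset (ℕ × ℕ)) : Set (ℕ × ℕ))
    rw [mem_coe, mem_product]
    exact ⟨h5, h6⟩
  have hcard : (Q.card : ℝ) ≤ (Y.card : ℝ) ^ 2 * W := by
    rw [hsum]
    push_cast
    calc _ ≤ ∑ _z ∈ Y ×ˢ Y, W := sum_le_sum hfib
      _ = (Y.card : ℝ) ^ 2 * W := by
        rw [sum_const, card_product, nsmul_eq_mul]; push_cast; ring
  -- final numeric estimate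
  have hkR : ((kap : ℕ) : ℝ) = (2 : ℝ) ^ (K + 1) := by rw [hkap]; push_cast; rfl
  have hprodNR : (∏ i, (N i : ℝ)) = ((2 : ℝ) ^ (K + 1)) ^ K * R' := by
    have h9 : ((∏ i, N i : ℕ) : ℝ) = ((kap ^ K * R' : ℕ) : ℝ) := by rw [hprodN]
    rw [Nat.cast_prod, Nat.cast_mul, Nat.cast_pow, hkR] at h9
    exact h9
  set k : ℝ := (2 : ℝ) ^ (K + 1) with hkdef
  have hk0 : 0 < k := by positivity
  have hcR : (0 : ℝ) < s.2.2 := by exact_mod_cast hc1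
  have hRr1 : (1 : ℝ) ≤ (R' : ℝ) := by exact_mod_cast hR1
  have hRUl : (R' : ℝ) * l = U := by rw [hl, hU]; exact_mod_cast hRU
  have hl0 : 0 < l := by rw [hl]; exact_mod_cast hl1
  have hU0 : 0 < U := by rw [hU]; exact_mod_cast hU1
  have e2 : 1 / (f : ℝ) ≤ k / pr := by
    rw [div_le_div_iff₀ (by linarith) (by linarith)]
    linarith
  have hNk : ∀ i, (N i : ℝ) = k * (rd K (num s j) {i.castSucc} : ℝ) := by
    intro i
    simp only [hN]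
    rw [Nat.cast_mul, hkR]
  obtain ⟨gR, hgR⟩ : ∃ x : ℝ, x = gf Gp mp (fun i => (rd K (num s j) {i.castSucc} : ℝ)) pr :=
    ⟨_, rfl⟩
  have hgR0 : 0 ≤ gR := by
    rw [hgR]
    exact gf_nonneg _ _ _ _ (fun i => Nat.cast_nonneg _) (by linarith)
  obtain ⟨gN, hgN⟩ : ∃ x : ℝ, x = gf Gp mp (fun i => (N i : ℝ)) (f : ℝ) := ⟨_, rfl⟩
  have hgf : gN ≤ k ^ (3 * h) * gR := by
    rw [hgN, hgR]
    have e5 : (fun i => (N i : ℝ)) = fun i => k * (rd K (num s j) {i.castSucc} : ℝ) :=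
      funext hNk
    rw [e5]
    exact gf_scale hA k f pr _ hk (by linarith) (by linarith) (fun i => Nat.cast_nonneg _) e2
  obtain ⟨Zr, hZr⟩ : ∃ x : ℝ, x = ∏ i ∈ (univ.biUnion Gp)ᶜ,
    (rd K (num s j) {i.castSucc} : ℝ) := ⟨_, rfl⟩
  have hZr0 : 0 ≤ Zr := by
    rw [hZr]
    exact prod_nonneg fun i _ => Nat.cast_nonneg _
  obtain ⟨ZN, hZN⟩ : ∃ x : ℝ, x = ∏ i ∈ (univ.biUnion Gp)ᶜ, (N i : ℝ) := ⟨_, rfl⟩
  have hZN0 : 0 ≤ ZN := by
    rw [hZN]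
    exact prod_nonneg fun i _ => Nat.cast_nonneg _
  have hZ : ZN ≤ k ^ K * Zr := by
    rw [hZN, prod_congr rfl fun i _ => hNk i, prod_mul_distrib, prod_const, ← hZr]
    refine mul_le_mul_of_nonneg_right (pow_le_pow_right₀ hk ?_) hZr0
    exact (card_le_univ _).trans (by rw [Fintype.card_fin])
  have hXe1 : ((kap * s.2.2 : ℕ) : ℝ) ^ e = k ^ e * (s.2.2 : ℝ) ^ e := by
    rw [Nat.cast_mul, hkR, Real.mul_rpow hk0.le hcR.le]
  have hXe2 : (X2 : ℝ) ^ e = (k ^ (K + 1)) ^ e * (s.2.2 : ℝ) ^ e := by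
    rw [hX2, Nat.cast_mul, Nat.cast_pow, hkR, Real.mul_rpow (by positivity) hcR.le]
  have hce : (s.2.2 : ℝ) ^ (3 * e) = ((s.2.2 : ℝ) ^ e) ^ 3 := by
    rw [← Real.rpow_natCast, ← Real.rpow_mul hcR.le]
    congr 1
    push_cast; ring
  have hY2 : (Y.card : ℝ) ^ 2 ≤ (D4 * (k ^ e * (s.2.2 : ℝ) ^ e) * (k * l)) ^ 2 := by
    apply pow_le_pow_left₀ (Nat.cast_nonneg _)
    rw [← hXe1]; exact hYcard
  rw [← hgN] at hgf0
  have hW' : W = DJ * ((k ^ (K + 1)) ^ e * (s.2.2 : ℝ) ^ e) * ((k ^ K * R') * ZN * gN) := by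
    rw [hW, hprodNR, hXe2, ← hZN, ← hgN]
  clear_value W k
  have hR'0 : (0 : ℝ) ≤ R' := by linarith
  have hWle : W ≤ DJ * ((k ^ (K + 1)) ^ e * (s.2.2 : ℝ) ^ e) *
      ((k ^ K * R') * (k ^ K * Zr) * (k ^ (3 * h) * gR)) := by
    rw [hW']
    have q1 : (k ^ K * (R' : ℝ)) * ZN ≤ (k ^ K * R') * (k ^ K * Zr) :=
      mul_le_mul_of_nonneg_left hZ (by positivity)
    have q2 : (k ^ K * (R' : ℝ)) * ZN * gN ≤ (k ^ K * R') * (k ^ K * Zr) * (k ^ (3 * h) * gR) :=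
      mul_le_mul q1 hgf hgf0 (by positivity)
    exact mul_le_mul_of_nonneg_left q2 (by positivity)
  have hfin : (Q.card : ℝ) ≤ (D4 ^ 2 * DJ * k ^ (2 * K + 3 * h + 2) *
      ((k ^ e) ^ 2 * (k ^ (K + 1)) ^ e)) * ((s.2.2 : ℝ) ^ e) ^ 3 *
        ((R' * l) * (l * Zr) * gR) := by
    calc (Q.card : ℝ) ≤ (Y.card : ℝ) ^ 2 * W := hcard
      _ ≤ (D4 * (k ^ e * (s.2.2 : ℝ) ^ e) * (k * l)) ^ 2 *
          (DJ * ((k ^ (K + 1)) ^ e * (s.2.2 : ℝ) ^ e) *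
            ((k ^ K * R') * (k ^ K * Zr) * (k ^ (3 * h) * gR))) :=
          mul_le_mul hY2 hWle hW0 (by positivity)
      _ = _ := by ring
  rw [hRUl, ← hce, hZr, hgR] at hfin
  exact hfin

/-- EST2: fix the part `F` of side `r`, Cauchy-Schwarz over residue classes for the two others -/
def StmtEst2 : Prop :=
  ∀ K h₁ h₂ M : ℕ, ∀ ε : ℝ, 0 < ε → ∃ D : ℝ, 0 < D ∧ ∀ T : Finset (ℕ × ℕ × ℕ), Cell K T → ∀ s ∈ T,
    ∀ p q r : Fin 3, p ≠ q → q ≠ r → p ≠ r → ∀ F : Finset (Fin (K + 1)),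
    ∀ (G₁ : Fin h₁ → Finset (Fin K)) (m₁ : Fin h₁ → ℕ) (G₂ : Fin h₂ → Finset (Fin K))
      (m₂ : Fin h₂ → ℕ), Adm M G₁ m₁ → Adm M G₂ m₂ →
    (T.card : ℝ) ≤ D * (s.2.2 : ℝ) ^ ε * (rd K (num s r) F : ℝ) *
      (side2 K s r p F G₁ m₁ * side2 K s r q F G₂ m₂) ^ ((1 : ℝ) / 2)

theorem stmtEst2_of (hF : Basics) (hA4 : StmtA4) (hJ : StmtJ2) : StmtEst2 := by
  classical
  intro K h₁ h₂ Mm ε hε
  obtain ⟨D4, hD4, h4⟩ := hA4 (ε / 4) (by linarith)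
  obtain ⟨DJ₁, hDJ₁, hJ₁⟩ := hJ K h₁ Mm (ε / 4) (by linarith)
  obtain ⟨DJ₂, hDJ₂, hJ₂⟩ := hJ K h₂ Mm (ε / 4) (by linarith)
  set e := ε / 4 with he
  have hJB₁ : J2Body K h₁ Mm DJ₁ e := hJ₁
  have hJB₂ : J2Body K h₂ Mm DJ₂ e := hJ₂
  set k : ℝ := (2 : ℝ) ^ (K + 1) with hk
  have hk1 : 1 ≤ k := one_le_pow₀ (by norm_num)
  set M₁ : ℝ := D4 ^ 2 * DJ₁ * k ^ (2 * K + 3 * h₁ + 2) *
    ((k ^ e) ^ 2 * (k ^ (K + 1)) ^ e) with hM₁
  set M₂ : ℝ := D4 ^ 2 * DJ₂ * k ^ (2 * K + 3 * h₂ + 2) *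
    ((k ^ e) ^ 2 * (k ^ (K + 1)) ^ e) with hM₂
  have hM₁0 : 0 < M₁ := by rw [hM₁]; positivity
  have hM₂0 : 0 < M₂ := by rw [hM₂]; positivity
  obtain ⟨M, hM1, hM2⟩ : ∃ M, M₁ ≤ M ∧ M₂ ≤ M := ⟨max M₁ M₂, le_max_left _ _, le_max_right _ _⟩
  have hM0 : 0 < M := hM₁0.trans_le hM1
  refine ⟨D4 * k ^ e * k * M, by positivity, ?_⟩
  intro T hT s hs p q r hpq hqr hpr F G₁ m₁ G₂ m₂ hA₁ hA₂
  have hs0 : (0 : ℝ) < s.2.2 := by exact_mod_cast (hT.abc s hs).2.2.1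
  have hX1 : 1 ≤ 2 ^ (K + 1) * s.2.2 :=
    (num_pos (hT.abc s hs) r).trans (num_le_X hF hT hs hs r)
  obtain ⟨s₁, hs₁⟩ : ∃ x : ℝ, x = side2 K s r p F G₁ m₁ := ⟨_, rfl⟩
  obtain ⟨s₂, hs₂⟩ : ∃ x : ℝ, x = side2 K s r q F G₂ m₂ := ⟨_, rfl⟩
  have hs₁0 : 0 ≤ s₁ := by rw [hs₁]; exact side2_nonneg _ _ _ _ _ _ _
  have hs₂0 : 0 ≤ s₂ := by rw [hs₂]; exact side2_nonneg _ _ _ _ _ _ _
  rw [← hs₁, ← hs₂]
  set V : ℝ := (s₁ * s₂) ^ ((1 : ℝ) / 2) with hV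
  have hV0 : 0 ≤ V := Real.rpow_nonneg (mul_nonneg hs₁0 hs₂0) _
  set I := T.image fun t => part K (num t r) F with hI
  have hIcard : (I.card : ℝ) ≤
      D4 * ((2 ^ (K + 1) * s.2.2 : ℕ) : ℝ) ^ e * (k * (rd K (num s r) F : ℝ)) := by
    have h1 : I ⊆ (Icc 1 (2 ^ (K + 1) * s.2.2)).filter
        fun d => (rad d : ℝ) ≤ k * (rd K (num s r) F : ℝ) := by
      intro m hm
      obtain ⟨t, ht, rfl⟩ := mem_image.1 hm
      have hn := num_pos (hT.abc t ht) r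
      rw [mem_filter, mem_Icc]
      refine ⟨⟨hF.part_pos K _ F, (Nat.le_of_dvd hn (hF.part_dvd K (num t r) F hn)).trans
        (num_le_X hF hT ht hs r)⟩, ?_⟩
      rw [hF.rad_part K _ F hn, hk]
      exact_mod_cast hT.rd_le t ht s hs r F
    exact (by exact_mod_cast card_le_card h1 : (I.card : ℝ) ≤ _).trans
      (h4 _ hX1 _ (by positivity))
  have hfib : ∀ f ∈ I, ((T.filter fun t => part K (num t r) F = f).card : ℝ) ≤
      M * (s.2.2 : ℝ) ^ (3 * e) * V := by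
    intro f hf
    obtain ⟨t0, ht0, htf0⟩ := mem_image.1 hf
    set T' := T.filter fun t => part K (num t r) F = f with hT'
    have hTmem : ∀ t ∈ T', t ∈ T ∧ part K (num t r) F = f := by
      intro t ht
      rw [hT', mem_filter] at ht
      exact ht
    set P := T'.image fun t => num t p with hP
    set Q := T'.image fun t => num t q with hQd
    set κP : ℕ → ℤ := fun n => (sg r * (n : ℤ)) % (f : ℤ) with hκP
    set κQ : ℕ → ℤ := fun m => (m : ℤ) % (f : ℤ) with hκQ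
    have hcard : T'.card ≤ ((P ×ˢ Q).filter fun t => κP t.1 = κQ t.2).card := by
      have h1 : (T'.image fun t => (num t p, num t q)).card = T'.card := by
        apply card_image_of_injOn
        intro t ht t' ht' htt
        simp only [Prod.mk.injEq] at htt
        exact num_inj (hT.abc t (hTmem t ht).1) (hT.abc t' (hTmem t' ht').1) hpq htt.1 htt.2
      rw [← h1]
      apply card_le_card
      intro x hx
      obtain ⟨t, ht, rfl⟩ := mem_image.1 hx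
      obtain ⟨htT, htf⟩ := hTmem t ht
      have h2 := num_dvd (hT.abc t htT) hpq hqr hpr
        (f := f) (htf ▸ hF.part_dvd K (num t r) F (num_pos (hT.abc t htT) r))
      rw [mem_filter, mem_product]
      exact ⟨⟨mem_image_of_mem _ ht, mem_image_of_mem _ ht⟩, h2⟩
    have hEP : ((((P ×ˢ P).filter fun t => κP t.1 = κP t.2).card : ℕ) : ℝ) ≤
        M * (s.2.2 : ℝ) ^ (3 * e) * s₁ := by
      refine le_trans (b := M₁ * (s.2.2 : ℝ) ^ (3 * e) * s₁) ?_ (by gcongr)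
      rw [hs₁]
      apply energy2 hF hT hs hpr F hD4.le hDJ₁.le h4 hJB₁ G₁ m₁ hA₁ ⟨t0, ht0, htf0⟩
      intro x hx
      rw [mem_filter, mem_product] at hx
      obtain ⟨⟨hx1, hx2⟩, hx4⟩ := hx
      obtain ⟨t, ht, htx⟩ := mem_image.1 hx1
      obtain ⟨t', ht', htx'⟩ := mem_image.1 hx2
      obtain ⟨htT, htf⟩ := hTmem t ht
      obtain ⟨htT', htf'⟩ := hTmem t' ht'
      refine ⟨?_, ⟨t, htT, htf, htx⟩, ⟨t', htT', htf', htx'⟩⟩
      have h1 : sg r * (x.1 : ℤ) ≡ sg r * (x.2 : ℤ) [ZMOD (f : ℤ)] := hx4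
      have h2 : sg r * sg r = 1 := by unfold sg; split_ifs <;> norm_num
      have h3 := h1.mul_left (sg r)
      rw [← mul_assoc, ← mul_assoc, h2, one_mul, one_mul] at h3
      exact h3
    have hEQ : ((((Q ×ˢ Q).filter fun t => κQ t.1 = κQ t.2).card : ℕ) : ℝ) ≤
        M * (s.2.2 : ℝ) ^ (3 * e) * s₂ := by
      refine le_trans (b := M₂ * (s.2.2 : ℝ) ^ (3 * e) * s₂) ?_ (by gcongr)
      rw [hs₂]
      apply energy2 hF hT hs hqr F hD4.le hDJ₂.le h4 hJB₂ G₂ m₂ hA₂ ⟨t0, ht0, htf0⟩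
      intro x hx
      rw [mem_filter, mem_product] at hx
      obtain ⟨⟨hx1, hx2⟩, hx4⟩ := hx
      obtain ⟨t, ht, htx⟩ := mem_image.1 hx1
      obtain ⟨t', ht', htx'⟩ := mem_image.1 hx2
      obtain ⟨htT, htf⟩ := hTmem t ht
      obtain ⟨htT', htf'⟩ := hTmem t' ht'
      exact ⟨hx4, ⟨t, htT, htf, htx⟩, ⟨t', htT', htf', htx'⟩⟩
    have hcs := Est.cs P Q κP κQ
    set A : ℝ := M * (s.2.2 : ℝ) ^ (3 * e) with hA
    have hA0 : 0 ≤ A := by rw [hA]; positivity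
    have hT'sq : (T'.card : ℝ) ^ 2 ≤ (A * V) ^ 2 := by
      have h1 : (T'.card : ℝ) ^ 2 ≤ (((P ×ˢ Q).filter fun t => κP t.1 = κQ t.2).card : ℝ) ^ 2 := by
        apply pow_le_pow_left₀ (Nat.cast_nonneg _)
        exact_mod_cast hcard
      have h2 : (A * s₁) * (A * s₂) = (A * V) ^ 2 := by
        have h3 : V ^ 2 = s₁ * s₂ := by
          rw [hV, ← Real.rpow_natCast, ← Real.rpow_mul (mul_nonneg hs₁0 hs₂0)]
          norm_num
        rw [mul_pow, h3]; ring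
      calc _ ≤ _ := h1
        _ ≤ _ := hcs
        _ ≤ (A * s₁) * (A * s₂) :=
            mul_le_mul hEP hEQ (Nat.cast_nonneg _) (mul_nonneg hA0 hs₁0)
        _ = _ := h2
    exact le_of_sq_le_sq hT'sq (mul_nonneg hA0 hV0)
  have hsum : T.card = ∑ f ∈ I, (T.filter fun t => part K (num t r) F = f).card :=
    card_eq_sum_card_image _ T
  have hXe : ((2 ^ (K + 1) * s.2.2 : ℕ) : ℝ) ^ e = k ^ e * (s.2.2 : ℝ) ^ e := by
    push_cast
    rw [Real.mul_rpow (by positivity) hs0.le]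
  have hce : (s.2.2 : ℝ) ^ e * (s.2.2 : ℝ) ^ (3 * e) = (s.2.2 : ℝ) ^ ε := by
    rw [← Real.rpow_add hs0]
    congr 1
    rw [he]; ring
  calc (T.card : ℝ) = ∑ f ∈ I, ((T.filter fun t => part K (num t r) F = f).card : ℝ) := by
        rw [hsum]; push_cast; rfl
    _ ≤ ∑ _f ∈ I, M * (s.2.2 : ℝ) ^ (3 * e) * V := sum_le_sum hfib
    _ = (I.card : ℝ) * (M * (s.2.2 : ℝ) ^ (3 * e) * V) := by rw [sum_const, nsmul_eq_mul]
    _ ≤ (D4 * ((2 ^ (K + 1) * s.2.2 : ℕ) : ℝ) ^ e * (k * (rd K (num s r) F : ℝ))) *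
        (M * (s.2.2 : ℝ) ^ (3 * e) * V) :=
        mul_le_mul_of_nonneg_right hIcard (by positivity)
    _ = D4 * k ^ e * k * M * ((s.2.2 : ℝ) ^ e * (s.2.2 : ℝ) ^ (3 * e)) *
        (rd K (num s r) F : ℝ) * V := by rw [hXe]; ring
    _ = _ := by rw [hce]

end Pool.Agent.U663.AB
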