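import Mathlib
import Pool.Agent.U663.AB.Est2
import Pool.Agent.W221.ABC.Cell7

/-!
# abc cells: schemes of groups and the failure of all bounds
-/

set_option autoImplicit false

namespace Pool.Agent.U663.AB

open Finset Pool.Agent.H785R2.ABC Pool.Agent.H785R2.ABC.Bridge Pool.Agent.H705R2.ABC
  Pool.Agent.W221.ABC7

/-- schemes of groups of classes for the energy of a member -/
inductive Sch
  | one (G : Finset (Fin 8))
  | two (G H : Finset (Fin 8))
  | three (G H I : Finset (Fin 8))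

/-- a group: at most two classes, not the last one -/
def Grp (G : Finset (Fin 8)) : Prop := G.card ≤ 2 ∧ (7 : Fin 8) ∉ G

def Sch.Valid : Sch → Prop
  | .one G => Grp G
  | .two G H => Grp G ∧ Grp H ∧ Disjoint G H
  | .three G H I => Grp G ∧ Grp H ∧ Grp I ∧ Disjoint G H ∧ Disjoint G I ∧ Disjoint H I

/-- the exponent of the energy -/
noncomputable def Sch.en (v w : Fin 3 → Fin 8 → ℝ) (r j : Fin 3) (F : Finset (Fin 8)) : Sch → ℝ
  | .one G => cost v j univ + cost v j Gᶜ + max 0 (cost v j G - cost w r F)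
  | .two G H => cost v j univ + cost v j (G ∪ H)ᶜ +
      (1 / 2) * max 0 (2 * cost v j G - cost w r F) + (1 / 2) * max 0 (2 * cost v j H - cost w r F)
  | .three G H I => cost v j univ + cost v j (G ∪ H ∪ I)ᶜ +
      (1 / 3) * max 0 (3 * cost v j G - cost w r F) +
      (1 / 3) * max 0 (3 * cost v j H - cost w r F) +
      (1 / 3) * max 0 (3 * cost v j I - cost w r F)

/-- the number of groups -/
def Sch.hh : Sch → ℕ
  | .one _ => 1
  | .two _ _ => 2
  | .three _ _ _ => 3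

/-- the part of a set of classes below the last one -/
def dn (G : Finset (Fin 8)) : Finset (Fin 7) := univ.filter fun i => i.castSucc ∈ G

/-- the groups -/
def Sch.gr : (o : Sch) → Fin o.hh → Finset (Fin 7)
  | .one G => ![dn G]
  | .two G H => ![dn G, dn H]
  | .three G H I => ![dn G, dn H, dn I]

/-- the multiplicities -/
def Sch.mm : (o : Sch) → Fin o.hh → ℕ
  | .one _ => ![1]
  | .two _ _ => ![2, 2]
  | .three _ _ _ => ![3, 3, 3]

theorem map_dn {G : Finset (Fin 8)} (h : (7 : Fin 8) ∉ G) : (dn G).map Fin.castSuccEmb = G := by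
  ext i
  simp only [mem_map, dn, mem_filter, mem_univ, true_and, Fin.coe_castSuccEmb]
  constructor
  · rintro ⟨j, hj, rfl⟩
    exact hj
  · intro hi
    have h7 : i ≠ Fin.last 7 := by
      intro e
      subst e
      exact h hi
    obtain ⟨j, rfl⟩ := Fin.exists_castSucc_eq.2 h7
    exact ⟨j, hi, rfl⟩

theorem card_dn {G : Finset (Fin 8)} (h : Grp G) : (dn G).card ≤ 2 := by
  have e := congrArg card (map_dn h.2)
  rw [card_map] at e
  rw [e]
  exact h.1

theorem disj_dn {G H : Finset (Fin 8)} (h : Disjoint G H) : Disjoint (dn G) (dn H) := by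
  rw [Finset.disjoint_left] at h ⊢
  intro i hi hi'
  simp only [dn, mem_filter, mem_univ, true_and] at hi hi'
  exact h hi hi'

theorem Sch.adm {o : Sch} (h : o.Valid) : Adm 3 o.gr o.mm := by
  cases o with
  | one G =>
    refine ⟨?_, ?_, ?_, ?_, ?_⟩
    · exact (by decide : ∀ j : Fin 1, 1 ≤ (![1] : Fin 1 → ℕ) j)
    · exact (by decide : ∀ j : Fin 1, (![1] : Fin 1 → ℕ) j ≤ 3)
    · intro j; fin_cases j; exact card_dn h
    · intro i j hij
      exact absurd (Subsingleton.elim (α := Fin 1) i j) hij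
    · simp [Sch.mm, Sch.hh]
  | two G H =>
    obtain ⟨h1, h2, h3⟩ := h
    refine ⟨?_, ?_, ?_, ?_, ?_⟩
    · exact (by decide : ∀ j : Fin 2, 1 ≤ (![2, 2] : Fin 2 → ℕ) j)
    · exact (by decide : ∀ j : Fin 2, (![2, 2] : Fin 2 → ℕ) j ≤ 3)
    · intro j
      fin_cases j
      · exact card_dn h1
      · exact card_dn h2
    · intro i j hij
      fin_cases i <;> fin_cases j
      · exact absurd rfl hij
      · exact disj_dn h3
      · exact (disj_dn h3).symm
      · exact absurd rfl hij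
    · show ∑ j : Fin 2, 1 / (((![2, 2] : Fin 2 → ℕ) j : ℕ) : ℝ) = 1
      rw [Fin.sum_univ_two]
      norm_num
  | three G H I =>
    obtain ⟨h1, h2, h3, h4, h5, h6⟩ := h
    refine ⟨?_, ?_, ?_, ?_, ?_⟩
    · exact (by decide : ∀ j : Fin 3, 1 ≤ (![3, 3, 3] : Fin 3 → ℕ) j)
    · exact (by decide : ∀ j : Fin 3, (![3, 3, 3] : Fin 3 → ℕ) j ≤ 3)
    · intro j
      fin_cases j
      · exact card_dn h1
      · exact card_dn h2
      · exact card_dn h3
    · intro i j hij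
      fin_cases i <;> fin_cases j
      · exact absurd rfl hij
      · exact disj_dn h4
      · exact disj_dn h5
      · exact (disj_dn h4).symm
      · exact absurd rfl hij
      · exact disj_dn h6
      · exact (disj_dn h5).symm
      · exact (disj_dn h6).symm
      · exact absurd rfl hij
    · show ∑ j : Fin 3, 1 / (((![3, 3, 3] : Fin 3 → ℕ) j : ℕ) : ℝ) = 1
      rw [Fin.sum_univ_three]
      show 1 / (((3 : ℕ)) : ℝ) + 1 / (((3 : ℕ)) : ℝ) + 1 / (((3 : ℕ)) : ℝ) = 1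
      norm_num

/-- the radical of a group -/
theorem rd_dn (hF : Basics) (n : ℕ) {G : Finset (Fin 8)} (h : (7 : Fin 8) ∉ G) :
    ∏ i ∈ dn G, (rd 7 n {i.castSucc} : ℝ) = rd 7 n G := by
  have e : rd 7 n G = ∏ i ∈ dn G, rd 7 n {i.castSucc} := by
    conv_lhs => rw [hF.rd_prod 7 n G, ← map_dn h, prod_map]
    rfl
  rw [e]
  push_cast
  rfl

/-- the radical of the remaining classes -/
theorem rd_compl_dn (hF : Basics) (n : ℕ) {U : Finset (Fin 8)} (h : (7 : Fin 8) ∉ U) :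
    (rd 7 n {Fin.last 7} : ℝ) * ∏ i ∈ (dn U)ᶜ, (rd 7 n {i.castSucc} : ℝ) = rd 7 n Uᶜ := by
  have e1 : Uᶜ = insert (Fin.last 7) (((dn U)ᶜ).map Fin.castSuccEmb) := by
    ext i
    simp only [mem_compl, mem_insert, mem_map, dn, mem_filter, mem_univ, true_and,
      Fin.coe_castSuccEmb]
    constructor
    · intro hi
      by_cases h7 : i = Fin.last 7
      · exact Or.inl h7
      · obtain ⟨j, rfl⟩ := Fin.exists_castSucc_eq.2 h7
        exact Or.inr ⟨j, hi, rfl⟩
    · rintro (rfl | ⟨j, hj, rfl⟩)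
      · exact h
      · exact hj
  have e2 : Fin.last 7 ∉ ((dn U)ᶜ).map Fin.castSuccEmb := by
    simp only [mem_map, Fin.coe_castSuccEmb, not_exists, not_and]
    intro j _ hj
    exact (Fin.castSucc_lt_last j).ne hj
  have e3 : rd 7 n Uᶜ = rd 7 n {Fin.last 7} * ∏ i ∈ (dn U)ᶜ, rd 7 n {i.castSucc} := by
    rw [hF.rd_prod 7 n Uᶜ, e1, prod_insert e2, prod_map]
    rfl
  rw [e3]
  push_cast
  rfl

theorem dn_union (G H : Finset (Fin 8)) : dn (G ∪ H) = dn G ∪ dn H := by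
  ext i
  simp [dn]

/-- all bounds fail at the level `t` -/
structure Fail8 (v w : Fin 3 → Fin 8 → ℝ) (t : ℝ) : Prop extends Fail v w t where
  N : ∀ p q r : Fin 3, p ≠ q → q ≠ r → p ≠ r → ∀ F : Finset (Fin 8), ∀ op oq : Sch,
    op.Valid → oq.Valid →
    t < cost v r F + (1 / 2) * op.en v w r p F + (1 / 2) * oq.en v w r q F

/-- one factor -/
theorem fac_le (c x y : ℝ) (m : ℕ) (hm : 1 ≤ m) (hc : 1 < c) :
    (1 + (c ^ x) ^ m / c ^ y) ^ (1 / (m : ℝ)) ≤ 2 * c ^ ((1 / (m : ℝ)) * max 0 (m * x - y)) := by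
  have hc0 : 0 < c := by linarith
  have hm0 : (0 : ℝ) < m := by exact_mod_cast hm
  have e1 : (c ^ x) ^ m / c ^ y = c ^ ((m : ℝ) * x - y) := by
    rw [← Real.rpow_natCast, ← Real.rpow_mul hc0.le, ← Real.rpow_sub hc0, mul_comm]
  rw [e1]
  have e2 : 1 + c ^ ((m : ℝ) * x - y) ≤ 2 * c ^ (max 0 ((m : ℝ) * x - y)) := by
    have h1 : (1 : ℝ) ≤ c ^ (max 0 ((m : ℝ) * x - y)) :=
      Real.one_le_rpow hc.le (le_max_left _ _)
    have h2 : c ^ ((m : ℝ) * x - y) ≤ c ^ (max 0 ((m : ℝ) * x - y)) :=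
      Real.rpow_le_rpow_of_exponent_le hc.le (le_max_right _ _)
    linarith
  have h3 : (0 : ℝ) ≤ 1 + c ^ ((m : ℝ) * x - y) := by positivity
  calc (1 + c ^ ((m : ℝ) * x - y)) ^ (1 / (m : ℝ)) ≤
        (2 * c ^ (max 0 ((m : ℝ) * x - y))) ^ (1 / (m : ℝ)) :=
        Real.rpow_le_rpow h3 e2 (by positivity)
    _ = 2 ^ (1 / (m : ℝ)) * c ^ ((1 / (m : ℝ)) * max 0 (m * x - y)) := by
        rw [Real.mul_rpow (by norm_num) (by positivity), ← Real.rpow_mul hc0.le]
        congr 2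
        ring
    _ ≤ 2 * c ^ ((1 / (m : ℝ)) * max 0 (m * x - y)) := by
        refine mul_le_mul_of_nonneg_right ?_ (by positivity)
        calc (2 : ℝ) ^ (1 / (m : ℝ)) ≤ 2 ^ (1 : ℝ) := by
              apply Real.rpow_le_rpow_of_exponent_le (by norm_num)
              rw [div_le_one hm0]
              exact_mod_cast hm
          _ = 2 := Real.rpow_one 2

/-- the factor of a side in terms of the exponents -/
theorem side2_le (hF : Basics) {s : ℕ × ℕ × ℕ} (h : IsABCTriple s.1 s.2.1 s.2.2) (r j : Fin 3)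
    (F : Finset (Fin 8)) {o : Sch} (ho : o.Valid) :
    side2 7 s r j F o.gr o.mm ≤ 8 * (s.2.2 : ℝ) ^ o.en (expV 7 s) (expW 7 s) r j F := by
  have hc2 : (2 : ℝ) ≤ s.2.2 := by exact_mod_cast two_le_c h
  have hc : (0 : ℝ) < s.2.2 := by linarith
  have hc1 : (1 : ℝ) < s.2.2 := by linarith
  set c : ℝ := (s.2.2 : ℝ) with hcd
  have hgrp : ∀ G : Finset (Fin 8), (7 : Fin 8) ∉ G →
      ∏ i ∈ dn G, (rd 7 (num s j) {i.castSucc} : ℝ) = c ^ cost (expV 7 s) j G := by
    intro G hG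
    rw [rd_dn hF _ hG, rd_eq hF 7 h]
  have hcom : ∀ U : Finset (Fin 8), (7 : Fin 8) ∉ U →
      (rd 7 (num s j) {Fin.last 7} : ℝ) * ∏ i ∈ (dn U)ᶜ, (rd 7 (num s j) {i.castSucc} : ℝ) =
        c ^ cost (expV 7 s) j Uᶜ := by
    intro U hU
    rw [rd_compl_dn hF _ hU, rd_eq hF 7 h]
  have hcu : (rd 7 (num s j) univ : ℝ) = c ^ cost (expV 7 s) j univ := by rw [rd_eq hF 7 h]
  have hw : (part 7 (num s r) F : ℝ) = c ^ cost (expW 7 s) r F := by rw [part_eq hF 7 h]
  unfold side2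
  cases o with
  | one G =>
    obtain ⟨hG1, hG2⟩ := ho
    have e1 : (univ.biUnion (Sch.one G).gr : Finset (Fin 7)) = dn G := by
      show (univ : Finset (Fin 1)).biUnion ![dn G] = dn G
      ext i
      simp
    have e2 : gf (Sch.one G).gr (Sch.one G).mm
        (fun i => (rd 7 (num s j) {i.castSucc} : ℝ)) (part 7 (num s r) F) =
        (1 + (c ^ cost (expV 7 s) j G) ^ 1 / c ^ cost (expW 7 s) r F) ^ (1 / ((1 : ℕ) : ℝ)) := by
      show ∏ k : Fin 1, _ = _
      rw [Fin.prod_univ_one]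
      show (1 + (∏ i ∈ dn G, (rd 7 (num s j) {i.castSucc} : ℝ)) ^ 1 /
        (part 7 (num s r) F : ℝ)) ^ (1 / ((1 : ℕ) : ℝ)) = _
      rw [hgrp G hG2, hw]
    rw [e1, hcom G hG2, hcu, e2]
    have e3 := fac_le c (cost (expV 7 s) j G) (cost (expW 7 s) r F) 1 le_rfl hc1
    simp only [Nat.cast_one, one_mul, div_one] at e3 ⊢
    have e4 : c ^ (Sch.one G).en (expV 7 s) (expW 7 s) r j F =
        c ^ cost (expV 7 s) j univ * c ^ cost (expV 7 s) j Gᶜ *
          c ^ (max 0 (cost (expV 7 s) j G - cost (expW 7 s) r F)) := by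
      rw [← Real.rpow_add hc, ← Real.rpow_add hc]
      rfl
    rw [e4]
    have h0 : 0 ≤ c ^ cost (expV 7 s) j univ * c ^ cost (expV 7 s) j Gᶜ := by positivity
    have h1 : 0 ≤ c ^ (max 0 (cost (expV 7 s) j G - cost (expW 7 s) r F)) := by positivity
    calc _ ≤ c ^ cost (expV 7 s) j univ * c ^ cost (expV 7 s) j Gᶜ *
          (2 * c ^ (max 0 (cost (expV 7 s) j G - cost (expW 7 s) r F))) :=
          mul_le_mul_of_nonneg_left e3 h0
      _ ≤ _ := by nlinarith [mul_nonneg h0 h1]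
  | two G H =>
    obtain ⟨⟨hG1, hG2⟩, ⟨hH1, hH2⟩, hd⟩ := ho
    have hU : (7 : Fin 8) ∉ G ∪ H := by simp [hG2, hH2]
    have e1 : (univ.biUnion (Sch.two G H).gr : Finset (Fin 7)) = dn (G ∪ H) := by
      show (univ : Finset (Fin 2)).biUnion ![dn G, dn H] = dn (G ∪ H)
      rw [dn_union]
      ext i
      simp [Fin.exists_fin_two]
    have e2 : gf (Sch.two G H).gr (Sch.two G H).mm
        (fun i => (rd 7 (num s j) {i.castSucc} : ℝ)) (part 7 (num s r) F) =
        (1 + (c ^ cost (expV 7 s) j G) ^ 2 / c ^ cost (expW 7 s) r F) ^ (1 / ((2 : ℕ) : ℝ)) *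
        (1 + (c ^ cost (expV 7 s) j H) ^ 2 / c ^ cost (expW 7 s) r F) ^ (1 / ((2 : ℕ) : ℝ)) := by
      show ∏ k : Fin 2, _ = _
      rw [Fin.prod_univ_two]
      show (1 + (∏ i ∈ dn G, (rd 7 (num s j) {i.castSucc} : ℝ)) ^ 2 /
        (part 7 (num s r) F : ℝ)) ^ (1 / ((2 : ℕ) : ℝ)) *
        (1 + (∏ i ∈ dn H, (rd 7 (num s j) {i.castSucc} : ℝ)) ^ 2 /
        (part 7 (num s r) F : ℝ)) ^ (1 / ((2 : ℕ) : ℝ)) = _
      rw [hgrp G hG2, hgrp H hH2, hw]
    rw [e1, hcom _ hU, hcu, e2]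
    have e3 := fac_le c (cost (expV 7 s) j G) (cost (expW 7 s) r F) 2 (by norm_num) hc1
    have e3' := fac_le c (cost (expV 7 s) j H) (cost (expW 7 s) r F) 2 (by norm_num) hc1
    push_cast at e3 e3' ⊢
    set A : ℝ := c ^ ((1 / (2 : ℝ)) * max 0 (2 * cost (expV 7 s) j G - cost (expW 7 s) r F)) with hA
    set B : ℝ := c ^ ((1 / (2 : ℝ)) * max 0 (2 * cost (expV 7 s) j H - cost (expW 7 s) r F)) with hB
    have e4 : c ^ (Sch.two G H).en (expV 7 s) (expW 7 s) r j F =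
        c ^ cost (expV 7 s) j univ * c ^ cost (expV 7 s) j (G ∪ H)ᶜ * (A * B) := by
      rw [hA, hB, ← Real.rpow_add hc, ← Real.rpow_add hc, ← Real.rpow_add hc]
      congr 1
      simp only [Sch.en]
      ring
    rw [e4]
    have h0 : 0 ≤ c ^ cost (expV 7 s) j univ * c ^ cost (expV 7 s) j (G ∪ H)ᶜ := by positivity
    have hA0 : 0 ≤ A := by positivity
    have hB0 : 0 ≤ B := by positivity
    calc _ ≤ c ^ cost (expV 7 s) j univ * c ^ cost (expV 7 s) j (G ∪ H)ᶜ *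
          ((2 * A) * (2 * B)) :=
          mul_le_mul_of_nonneg_left (mul_le_mul e3 e3' (by positivity) (by positivity)) h0
      _ ≤ _ := by nlinarith [mul_nonneg h0 (mul_nonneg hA0 hB0)]
  | three G H I =>
    obtain ⟨⟨hG1, hG2⟩, ⟨hH1, hH2⟩, ⟨hI1, hI2⟩, hd⟩ := ho
    have hU : (7 : Fin 8) ∉ G ∪ H ∪ I := by simp [hG2, hH2, hI2]
    have e1 : (univ.biUnion (Sch.three G H I).gr : Finset (Fin 7)) = dn (G ∪ H ∪ I) := by
      show (univ : Finset (Fin 3)).biUnion ![dn G, dn H, dn I] = dn (G ∪ H ∪ I)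
      rw [dn_union, dn_union]
      ext i
      simp [Fin.exists_fin_succ]
    have e2 : gf (Sch.three G H I).gr (Sch.three G H I).mm
        (fun i => (rd 7 (num s j) {i.castSucc} : ℝ)) (part 7 (num s r) F) =
        (1 + (c ^ cost (expV 7 s) j G) ^ 3 / c ^ cost (expW 7 s) r F) ^ (1 / ((3 : ℕ) : ℝ)) *
        (1 + (c ^ cost (expV 7 s) j H) ^ 3 / c ^ cost (expW 7 s) r F) ^ (1 / ((3 : ℕ) : ℝ)) *
        (1 + (c ^ cost (expV 7 s) j I) ^ 3 / c ^ cost (expW 7 s) r F) ^ (1 / ((3 : ℕ) : ℝ)) := by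
      show ∏ k : Fin 3, _ = _
      rw [Fin.prod_univ_three]
      show (1 + (∏ i ∈ dn G, (rd 7 (num s j) {i.castSucc} : ℝ)) ^ 3 /
        (part 7 (num s r) F : ℝ)) ^ (1 / ((3 : ℕ) : ℝ)) *
        (1 + (∏ i ∈ dn H, (rd 7 (num s j) {i.castSucc} : ℝ)) ^ 3 /
        (part 7 (num s r) F : ℝ)) ^ (1 / ((3 : ℕ) : ℝ)) *
        (1 + (∏ i ∈ dn I, (rd 7 (num s j) {i.castSucc} : ℝ)) ^ 3 /
        (part 7 (num s r) F : ℝ)) ^ (1 / ((3 : ℕ) : ℝ)) = _
      rw [hgrp G hG2, hgrp H hH2, hgrp I hI2, hw]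
    rw [e1, hcom _ hU, hcu, e2]
    have e3 := fac_le c (cost (expV 7 s) j G) (cost (expW 7 s) r F) 3 (by norm_num) hc1
    have e3' := fac_le c (cost (expV 7 s) j H) (cost (expW 7 s) r F) 3 (by norm_num) hc1
    have e3'' := fac_le c (cost (expV 7 s) j I) (cost (expW 7 s) r F) 3 (by norm_num) hc1
    push_cast at e3 e3' e3'' ⊢
    set A : ℝ := c ^ ((1 / (3 : ℝ)) * max 0 (3 * cost (expV 7 s) j G - cost (expW 7 s) r F)) with hA
    set B : ℝ := c ^ ((1 / (3 : ℝ)) * max 0 (3 * cost (expV 7 s) j H - cost (expW 7 s) r F)) with hB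
    set C : ℝ := c ^ ((1 / (3 : ℝ)) * max 0 (3 * cost (expV 7 s) j I - cost (expW 7 s) r F)) with hC
    have e4 : c ^ (Sch.three G H I).en (expV 7 s) (expW 7 s) r j F =
        c ^ cost (expV 7 s) j univ * c ^ cost (expV 7 s) j (G ∪ H ∪ I)ᶜ * (A * B * C) := by
      rw [hA, hB, hC, ← Real.rpow_add hc, ← Real.rpow_add hc, ← Real.rpow_add hc,
        ← Real.rpow_add hc]
      congr 1
      simp only [Sch.en]
      ring
    rw [e4]
    have h0 : 0 ≤ c ^ cost (expV 7 s) j univ * c ^ cost (expV 7 s) j (G ∪ H ∪ I)ᶜ := by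
      positivity
    have hA0 : 0 ≤ A := by positivity
    have hB0 : 0 ≤ B := by positivity
    have hC0 : 0 ≤ C := by positivity
    calc _ ≤ c ^ cost (expV 7 s) j univ * c ^ cost (expV 7 s) j (G ∪ H ∪ I)ᶜ *
          ((2 * A) * (2 * B) * (2 * C)) := by
          refine mul_le_mul_of_nonneg_left ?_ h0
          exact mul_le_mul (mul_le_mul e3 e3' (by positivity) (by positivity)) e3''
            (by positivity) (by positivity)
      _ = _ := by ring

end Pool.Agent.U663.AB
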