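import Mathlib
import Pool.Agent.W221.ABC.Chk7c
import Pool.Agent.U663.AB.Cell8

/-!
# The checker of branch and bound certificates, with the bound `N` (after the library's `Chk7c`)
-/

set_option autoImplicit false

namespace Pool.Agent.U663.AB

open Finset Pool.Agent.H785R2.ABC Pool.Agent.W221.ABC7 Pool.Agent.W221.ABC7.Fm

/-- a group of classes given by its mask -/
def grpb (m : ℕ) : Bool :=
  Nat.blt m 128 && Nat.ble (Nat.add (Nat.add (Nat.add (Nat.mod m 2) (Nat.mod (Nat.div m 2) 2))
    (Nat.add (Nat.mod (Nat.div m 4) 2) (Nat.mod (Nat.div m 8) 2)))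
    (Nat.add (Nat.add (Nat.mod (Nat.div m 16) 2) (Nat.mod (Nat.div m 32) 2))
      (Nat.mod (Nat.div m 64) 2))) 2

/-- disjoint masks -/
def disb (m n : ℕ) : Bool := all8 fun i => !(bt m i && bt n i)

theorem grp_aux : ∀ m < 128, grpb m = true → (st m).card ≤ 2 ∧ (7 : Fin 8) ∉ st m := by
  decide +kernel

theorem grp_of {m : ℕ} (h : grpb m = true) : Grp (st m) := by
  have h' := h
  unfold grpb at h'
  rw [Bool.and_eq_true] at h'
  exact grp_aux m (Nat.le_of_ble_eq_true h'.1) h

theorem dis_of {m n : ℕ} (h : disb m n = true) : Disjoint (st m) (st n) := by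
  rw [Finset.disjoint_left]
  intro i hi hi'
  have g4 := all8_iff h i
  rw [(mem_filter.1 hi).2, (mem_filter.1 hi').2] at g4
  exact absurd g4 (by decide)

/-- a scheme given by numbers -/
def sch (t G H I : ℕ) : Sch :=
  if t = 1 then .one (st G) else if t = 2 then .two (st G) (st H) else .three (st G) (st H) (st I)

def oks (t G H I : ℕ) : Bool :=
  bif Nat.beq t 1 then grpb G else
  bif Nat.beq t 2 then grpb G && (grpb H && disb G H) else
  grpb G && (grpb H && (grpb I && (disb G H && (disb G I && disb H I))))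

theorem beq_ne {a b : ℕ} (h : Nat.beq a b = false) : a ≠ b := by
  rintro rfl
  rw [Nat.beq_refl] at h
  exact absurd h (by decide)

theorem sch_valid {t G H I : ℕ} (h : oks t G H I = true) : (sch t G H I).Valid := by
  unfold oks at h
  unfold sch
  cases h1 : Nat.beq t 1
  · cases h2 : Nat.beq t 2
    · rw [h1, h2] at h
      rw [if_neg (beq_ne h1), if_neg (beq_ne h2)]
      simp only [cond_false, Bool.and_eq_true] at h
      obtain ⟨g1, g2, g3, g4, g5, g6⟩ := h
      exact ⟨grp_of g1, grp_of g2, grp_of g3, dis_of g4, dis_of g5, dis_of g6⟩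
    · rw [h1, h2] at h
      rw [if_neg (beq_ne h1), if_pos (Nat.eq_of_beq_eq_true h2)]
      simp only [cond_false, cond_true, Bool.and_eq_true] at h
      exact ⟨grp_of h.1, grp_of h.2.1, dis_of h.2.2⟩
  · rw [h1] at h
    rw [if_pos (Nat.eq_of_beq_eq_true h1)]
    exact grp_of h

/-- the base of a scheme, times 420 -/
def bs (j t G H I : ℕ) : Fm :=
  bif Nat.beq t 1 then mul 420 (sub (mul 2 (V j 255)) (V j G)) else
  bif Nat.beq t 2 then mul 420 (sub (mul 2 (V j 255)) (add (V j G) (V j H))) else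
  mul 420 (sub (mul 2 (V j 255)) (add (V j G) (add (V j H) (V j I))))

/-- the summands of a scheme, times 420 -/
def tms (r j F t G H I : ℕ) : List Fm :=
  bif Nat.beq t 1 then [sub (mul 420 (V j G)) (mul 420 (W r F))] else
  bif Nat.beq t 2 then [sub (mul 420 (V j G)) (mul 210 (W r F)),
    sub (mul 420 (V j H)) (mul 210 (W r F))] else
  [sub (mul 420 (V j G)) (mul 140 (W r F)), sub (mul 420 (V j H)) (mul 140 (W r F)),
    sub (mul 420 (V j I)) (mul 140 (W r F))]

/-- all sums of `c` and some of the summands -/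
def subs (c : Fm) : List Fm → List Fm
  | [] => [c]
  | t :: ts => subs c ts ++ subs (add c t) ts

def pN (p q r F tp Gp Hp Ip tq Gq Hq Iq : ℕ) : List Fm :=
  subs (add (mul 840 (V r F)) (add (bs p tp Gp Hp Ip) (bs q tq Gq Hq Iq)))
    (tms r p F tp Gp Hp Ip ++ tms r q F tq Gq Hq Iq)

theorem subs_sound {x : ℕ → ℝ} {ts : List Fm} {τ : List ℝ}
    (h : List.Forall₂ (fun f r => Rep x f (840 * r)) ts τ) :
    ∀ (c' : Fm) (c : ℝ), Rep x c' (840 * c) → ∀ t : ℝ, t < c + (τ.map (max 0)).sum →
      ∃ y, t < y ∧ ∃ f ∈ subs c' ts, Rep x f (840 * y) := by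
  induction h with
  | nil =>
    intro c' c hc t ht
    simp only [List.map_nil, List.sum_nil, add_zero] at ht
    exact ⟨c, ht, c', List.mem_cons_self, hc⟩
  | @cons f r ts τ hf _ ih =>
    intro c' c hc t ht
    rw [List.map_cons, List.sum_cons] at ht
    rcases max_choice (0 : ℝ) r with h1 | h1
    · rw [h1, zero_add] at ht
      obtain ⟨y, hy, g, hg, hr⟩ := ih c' c hc t ht
      exact ⟨y, hy, g, List.mem_append_left _ hg, hr⟩
    · rw [h1, ← add_assoc] at ht
      obtain ⟨y, hy, g, hg, hr⟩ := ih (add c' f) (c + r)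
        (rep_congr (rep_add hc hf) (by ring)) t ht
      exact ⟨y, hy, g, List.mem_append_right _ hg, hr⟩

section sound

variable {v w : Fin 3 → Fin 8 → ℝ} {lam δ t : ℝ}

theorem cost_compl (v : Fin 3 → Fin 8 → ℝ) (j : Fin 3) (G : Finset (Fin 8)) :
    cost v j Gᶜ = cost v j univ - cost v j G := by
  have h := Finset.sum_add_sum_compl G (fun i => v j i)
  unfold cost
  linarith

theorem cost_union (v : Fin 3 → Fin 8 → ℝ) (j : Fin 3) {G H : Finset (Fin 8)}
    (h : Disjoint G H) : cost v j (G ∪ H) = cost v j G + cost v j H := by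
  unfold cost
  exact Finset.sum_union h

theorem half_max (m x : ℝ) (hm : 0 < m) : (1 / 2) * ((1 / m) * max 0 x) = max 0 (1 / (2 * m) * x) := by
  have h : 0 ≤ 1 / (2 * m) := by positivity
  rw [← mul_zero (1 / (2 * m)), ← mul_max_of_nonneg _ _ h, mul_zero]
  field_simp

/-- the base and the summands of a scheme -/
theorem sch_sound (hw : Wt v w) {r j F t G H I : ℕ} (hr : r < 3) (hj : j < 3)
    (h : oks t G H I = true) :
    ∃ (b : ℝ) (τ : List ℝ), Rep (xx v w lam δ) (bs j t G H I) (840 * b) ∧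
      List.Forall₂ (fun f r => Rep (xx v w lam δ) f (840 * r)) (tms r j F t G H I) τ ∧
      (1 / 2) * (sch t G H I).en v w (fz r) (fz j) (st F) = b + (τ.map (max 0)).sum := by
  have hv := sch_valid h
  unfold bs tms
  unfold sch at hv ⊢
  have vu := rep_V (v := v) (w := w) (lam := lam) (δ := δ) j 255 hj
  have vG := rep_V (v := v) (w := w) (lam := lam) (δ := δ) j G hj
  have vH := rep_V (v := v) (w := w) (lam := lam) (δ := δ) j H hj
  have vI := rep_V (v := v) (w := w) (lam := lam) (δ := δ) j I hj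
  have wr := rep_W (lam := lam) (δ := δ) hw r F hr
  rw [st_255] at vu
  cases h1 : Nat.beq t 1
  · cases h2 : Nat.beq t 2
    · rw [if_neg (beq_ne h1), if_neg (beq_ne h2)] at hv ⊢
      obtain ⟨_, _, _, d1, d2, d3⟩ := hv
      simp only [cond_false]
      refine ⟨(1 / 2) * (cost v (fz j) univ + cost v (fz j) (st G ∪ st H ∪ st I)ᶜ),
        [1 / (2 * 3) * (3 * cost v (fz j) (st G) - cost w (fz r) (st F)),
          1 / (2 * 3) * (3 * cost v (fz j) (st H) - cost w (fz r) (st F)),
          1 / (2 * 3) * (3 * cost v (fz j) (st I) - cost w (fz r) (st F))], ?_, ?_, ?_⟩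
      · refine rep_congr (rep_mul 420 (rep_sub (rep_mul 2 vu) (rep_add vG (rep_add vH vI)))) ?_
        rw [cost_compl, cost_union v _ (Finset.disjoint_union_left.2 ⟨d2, d3⟩), cost_union v _ d1]
        push_cast
        ring
      · refine List.Forall₂.cons ?_ (List.Forall₂.cons ?_ (List.Forall₂.cons ?_ List.Forall₂.nil))
        · exact rep_congr (rep_sub (rep_mul 420 vG) (rep_mul 140 wr)) (by push_cast; ring)
        · exact rep_congr (rep_sub (rep_mul 420 vH) (rep_mul 140 wr)) (by push_cast; ring)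
        · exact rep_congr (rep_sub (rep_mul 420 vI) (rep_mul 140 wr)) (by push_cast; ring)
      · simp only [Sch.en, List.map_cons, List.map_nil, List.sum_cons, List.sum_nil, add_zero]
        rw [← half_max 3 _ (by norm_num), ← half_max 3 _ (by norm_num),
          ← half_max 3 _ (by norm_num)]
        ring
    · rw [if_neg (beq_ne h1), if_pos (Nat.eq_of_beq_eq_true h2)] at hv ⊢
      obtain ⟨_, _, d1⟩ := hv
      simp only [cond_false, cond_true]
      refine ⟨(1 / 2) * (cost v (fz j) univ + cost v (fz j) (st G ∪ st H)ᶜ),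
        [1 / (2 * 2) * (2 * cost v (fz j) (st G) - cost w (fz r) (st F)),
          1 / (2 * 2) * (2 * cost v (fz j) (st H) - cost w (fz r) (st F))], ?_, ?_, ?_⟩
      · refine rep_congr (rep_mul 420 (rep_sub (rep_mul 2 vu) (rep_add vG vH))) ?_
        rw [cost_compl, cost_union v _ d1]
        push_cast
        ring
      · refine List.Forall₂.cons ?_ (List.Forall₂.cons ?_ List.Forall₂.nil)
        · exact rep_congr (rep_sub (rep_mul 420 vG) (rep_mul 210 wr)) (by push_cast; ring)
        · exact rep_congr (rep_sub (rep_mul 420 vH) (rep_mul 210 wr)) (by push_cast; ring)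
      · simp only [Sch.en, List.map_cons, List.map_nil, List.sum_cons, List.sum_nil, add_zero]
        rw [← half_max 2 _ (by norm_num), ← half_max 2 _ (by norm_num)]
        ring
  · rw [if_pos (Nat.eq_of_beq_eq_true h1)] at hv ⊢
    simp only [cond_true]
    refine ⟨(1 / 2) * (cost v (fz j) univ + cost v (fz j) (st G)ᶜ),
      [1 / (2 * 1) * (cost v (fz j) (st G) - cost w (fz r) (st F))], ?_, ?_, ?_⟩
    · refine rep_congr (rep_mul 420 (rep_sub (rep_mul 2 vu) vG)) ?_
      rw [cost_compl]
      push_cast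
      ring
    · refine List.Forall₂.cons ?_ List.Forall₂.nil
      exact rep_congr (rep_sub (rep_mul 420 vG) (rep_mul 420 wr)) (by push_cast; ring)
    · simp only [Sch.en, List.map_cons, List.map_nil, List.sum_cons, List.sum_nil, add_zero]
      rw [← half_max 1 _ (by norm_num)]
      ring

theorem cov_N (hw : Wt v w) {p q r F tp Gp Hp Ip tq Gq Hq Iq : ℕ} (hp : p < 3) (hq : q < 3)
    (hr : r < 3) (h1 : oks tp Gp Hp Ip = true) (h2 : oks tq Gq Hq Iq = true)
    (ht : t < cost v (fz r) (st F) + (1 / 2) * (sch tp Gp Hp Ip).en v w (fz r) (fz p) (st F) +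
      (1 / 2) * (sch tq Gq Hq Iq).en v w (fz r) (fz q) (st F)) :
    ∃ y, t < y ∧ ∃ f ∈ pN p q r F tp Gp Hp Ip tq Gq Hq Iq, Rep (xx v w lam δ) f (840 * y) := by
  obtain ⟨b1, τ1, c1, d1, e1⟩ := sch_sound (lam := lam) (δ := δ) (F := F) hw hr hp h1
  obtain ⟨b2, τ2, c2, d2, e2⟩ := sch_sound (lam := lam) (δ := δ) (F := F) hw hr hq h2
  have vr := rep_V (v := v) (w := w) (lam := lam) (δ := δ) r F hr
  unfold pN
  refine subs_sound (List.rel_append d1 d2) _ (cost v (fz r) (st F) + (b1 + b2))
    (rep_congr (rep_add (rep_mul 840 vr) (rep_add c1 c2)) (by push_cast; ring)) t ?_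
  rw [List.map_append, List.sum_append]
  linarith

def validN (m : ℕ) : Bool :=
  perm (dg m 0) (dg m 1) (dg m 2) && oks (dg m 4) (dg m 5) (dg m 6) (dg m 7) &&
    oks (dg m 8) (dg m 9) (dg m 10) (dg m 11)

def valid8 (kd m : ℕ) : Bool := bif Nat.beq kd 5 then validN m else valid kd m

def pcs8 (kd m : ℕ) : List Fm :=
  bif Nat.beq kd 5 then pN (dg m 0) (dg m 1) (dg m 2) (dg m 3) (dg m 4) (dg m 5) (dg m 6) (dg m 7)
    (dg m 8) (dg m 9) (dg m 10) (dg m 11)
  else pcs kd m

theorem node_sound8 (hw : Wt v w) (hf : Fail8 v w t) (kd m : ℕ) (h : valid8 kd m = true) :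
    ∃ y, t < y ∧ ∃ f ∈ pcs8 kd m, Rep (xx v w lam δ) f (840 * y) := by
  unfold valid8 at h
  unfold pcs8
  cases h1 : Nat.beq kd 5
  · rw [h1] at h
    exact node_sound hw hf.toFail kd m h
  · rw [h1] at h
    simp only [cond_true] at h ⊢
    unfold validN at h
    rw [Bool.and_eq_true, Bool.and_eq_true] at h
    obtain ⟨⟨g1, g2⟩, g3⟩ := h
    obtain ⟨hp, hq, hr, n1, n2, n3⟩ := perm_of g1
    exact cov_N hw hp hq hr g2 g3
      (hf.N _ _ _ n1 n2 n3 (st (dg m 3)) _ _ (sch_valid g2) (sch_valid g3))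

/-- the run of a certificate: a list of codes against a stack of goals -/
def run8 (P : Prm) : List ℕ → List (List Fm) → Bool
  | [], gs => gs.isEmpty
  | n :: ns, gs => match gs with
    | [] => false
    | g :: gs => bif Nat.beq (Nat.mod n 8) 0 then leafOk (baseR P) g (Nat.div n 8) && run8 P ns gs
      else valid8 (Nat.mod n 8) (Nat.div n 8) &&
        run8 P ns (expand P g gs (pcs8 (Nat.mod n 8) (Nat.div n 8)))

theorem run8_sound (P : Prm) (hd : 0 < P.den) (hx : ∀ j, 0 ≤ xx v w lam δ j) (hw : Wt v w)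
    (hb : ∀ f ∈ baseR P, ∃ r, Rep (xx v w lam δ) f r ∧ 0 ≤ r)
    (hf : Fail8 v w (P.th lam + 1000 * δ)) : ∀ (ns : List ℕ) (gs : List (List Fm)),
    run8 P ns gs = true → ∀ g ∈ gs, Goal (xx v w lam δ) g := by
  intro ns
  induction ns with
  | nil =>
    intro gs h g hg
    have h' : gs.isEmpty = true := h
    rw [List.isEmpty_iff] at h'
    rw [h'] at hg
    exact absurd hg List.not_mem_nil
  | cons n ns ih =>
    intro gs h g hg
    cases gs with
    | nil => exact absurd hg List.not_mem_nil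
    | cons g₀ gs =>
      have h' : (bif Nat.beq (Nat.mod n 8) 0 then
          leafOk (baseR P) g₀ (Nat.div n 8) && run8 P ns gs
        else valid8 (Nat.mod n 8) (Nat.div n 8) &&
          run8 P ns (expand P g₀ gs (pcs8 (Nat.mod n 8) (Nat.div n 8)))) = true := h
      cases hk : Nat.beq (Nat.mod n 8) 0
      · rw [hk, cond_false, Bool.and_eq_true] at h'
        obtain ⟨h1, h2⟩ := h'
        have h3 := ih _ h2
        rcases List.mem_cons.1 hg with rfl | hg'
        · intro hrows
          obtain ⟨y, hy, f, hfm, hrep⟩ := node_sound8 (lam := lam) (δ := δ) hw hf _ _ h1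
          refine h3 _ (expand_mem P g gs _ f hfm) ?_
          intro f' hf'
          rcases List.mem_cons.1 hf' with rfl | hf''
          · refine ⟨_, rep_sub (rep_mul P.den hrep) (rep_tf P hd), ?_⟩
            have hd' : (0 : ℝ) < P.den := by exact_mod_cast hd
            nlinarith
          · exact hrows f' hf''
        · exact h3 g (expand_mem' P g₀ gs _ g hg')
      · rw [hk, cond_true, Bool.and_eq_true] at h'
        obtain ⟨h1, h2⟩ := h'
        rcases List.mem_cons.1 hg with rfl | hg'
        · intro hrows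
          exact leafOk_sound hx _ _ _ hb hrows h1
        · exact ih gs h2 g hg'

theorem fail8_sw {t : ℝ} (h : Fail8 v w t) :
    Fail8 (fun j => v (sw j)) (fun j => w (sw j)) t := by
  refine ⟨fail_sw h.toFail, ?_⟩
  intro p q r h1 h2 h3 F op oq hop hoq
  have e : ∀ (o : Sch) (r j : Fin 3), o.en (fun j => v (sw j)) (fun j => w (sw j)) r j F =
      o.en v w (sw r) (sw j) F := by
    intro o r j
    cases o <;> rfl
  rw [e, e]
  exact h.N (sw p) (sw q) (sw r) (sw_inj h1) (sw_inj h2) (sw_inj h3) F op oq hop hoq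

/-- a successful run shows that not all bounds fail -/
theorem no_fail8 (P : Prm) (ns : List ℕ) (hrun : run8 P ns [[]] = true) (hd : 0 < P.den)
    (lam δ : ℝ) (hl : 0 ≤ lam) (hδ : 0 ≤ δ) (hlo : (P.lon : ℝ) ≤ P.lod * lam)
    (hhi : P.hid * lam ≤ P.hin) (v w : Fin 3 → Fin 8 → ℝ) (hP : Poly 7 lam δ v w)
    (h : Fail8 v w (P.th lam + 1000 * δ)) : False := by
  have key : ∀ v w : Fin 3 → Fin 8 → ℝ, Poly 7 lam δ v w → Fail8 v w (P.th lam + 1000 * δ) →
      cost v 2 univ ≤ cost v 1 univ → False := by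
    intro v w hP h hle
    exact run8_sound P hd (xx_nonneg hP hl hδ) (wt_of hP) (base_sound P hP (wt_of hP) hle hlo hhi)
      h ns [[]] hrun [] List.mem_cons_self (fun f hf => absurd hf List.not_mem_nil)
  rcases le_total (cost v 2 univ) (cost v 1 univ) with hc | hc
  · exact key v w hP h hc
  · refine key (fun j => v (sw j)) (fun j => w (sw j)) ?_ (fail8_sw h) hc
    exact ⟨fun j i => hP.v_nonneg _ i, fun j i hi => hP.w_eq _ i hi, fun j => hP.w_last _,
      hP.w0, hP.w2, hP.w2', hP.w1, hP.w1', by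
        have := hP.tot
        have e : ∀ j, cost (fun j => v (sw j)) j univ = cost v (sw j) univ := fun j => rfl
        rw [e, e, e]
        change cost v 0 univ + cost v 2 univ + cost v 1 univ ≤ lam
        linarith⟩

end sound

end Pool.Agent.U663.AB
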