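import Mathlib
import Pool.Agent.U663.AB.Chk8

/-!
# Certificates in several parts
-/

set_option autoImplicit false

namespace Pool.Agent.U663.AB

open Finset Pool.Agent.H785R2.ABC Pool.Agent.W221.ABC7 Pool.Agent.W221.ABC7.Fm

/-- the goal reached by a path of branchings (newest first), given by their codes and the numbers
of the chosen pieces -/
def goalOf (P : Prm) : List (ℕ × ℕ) → List Fm
  | [] => []
  | s :: p => rowT P ((pcs8 (Nat.mod s.1 8) (Nat.div s.1 8)).getD s.2 zero) :: goalOf P p

def feq (a b : Fm) : Bool := Nat.beq a.P b.P && (Nat.beq a.N b.N && Nat.beq a.M b.M)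

theorem feq_eq {a b : Fm} (h : feq a b = true) : a = b := by
  unfold feq at h
  rw [Bool.and_eq_true, Bool.and_eq_true] at h
  obtain ⟨h1, h2, h3⟩ := h
  cases a
  cases b
  simp only at h1 h2 h3
  rw [Nat.eq_of_beq_eq_true h1, Nat.eq_of_beq_eq_true h2, Nat.eq_of_beq_eq_true h3]

def leq : List Fm → List Fm → Bool
  | [], [] => true
  | a :: as, b :: bs => feq a b && leq as bs
  | _, _ => false

theorem leq_eq : ∀ (l l' : List Fm), leq l l' = true → l = l' := by
  intro l
  induction l with
  | nil =>
    intro l' h
    cases l' with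
    | nil => rfl
    | cons b bs => exact absurd h (by simp [leq])
  | cons a as ih =>
    intro l' h
    cases l' with
    | nil => exact absurd h (by simp [leq])
    | cons b bs =>
      have h' : (feq a b && leq as bs) = true := h
      rw [Bool.and_eq_true] at h'
      rw [feq_eq h'.1, ih bs h'.2]

/-- the run of a certificate some of whose goals are treated elsewhere -/
def runT (P : Prm) : List ℕ → List (List (ℕ × ℕ)) → List (List Fm) → Bool
  | [], _, gs => gs.isEmpty
  | n :: ns, ss, gs => match gs with
    | [] => false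
    | g :: gs => bif Nat.beq (Nat.mod n 8) 7 then
        !ss.isEmpty && (leq g (goalOf P (ss.headD [])) && runT P ns ss.tail gs)
      else bif Nat.beq (Nat.mod n 8) 0 then leafOk (baseR P) g (Nat.div n 8) && runT P ns ss gs
      else valid8 (Nat.mod n 8) (Nat.div n 8) &&
        runT P ns ss (expand P g gs (pcs8 (Nat.mod n 8) (Nat.div n 8)))

section sound

variable {v w : Fin 3 → Fin 8 → ℝ} {lam δ t : ℝ}

theorem runT_sound (P : Prm) (hd : 0 < P.den) (hx : ∀ j, 0 ≤ xx v w lam δ j) (hw : Wt v w)
    (hb : ∀ f ∈ baseR P, ∃ r, Rep (xx v w lam δ) f r ∧ 0 ≤ r)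
    (hf : Fail8 v w (P.th lam + 1000 * δ)) : ∀ (ns : List ℕ) (ss : List (List (ℕ × ℕ)))
    (gs : List (List Fm)), (∀ s ∈ ss, Goal (xx v w lam δ) (goalOf P s)) →
    runT P ns ss gs = true → ∀ g ∈ gs, Goal (xx v w lam δ) g := by
  intro ns
  induction ns with
  | nil =>
    intro ss gs _ h g hg
    have h' : gs.isEmpty = true := h
    rw [List.isEmpty_iff] at h'
    rw [h'] at hg
    exact absurd hg List.not_mem_nil
  | cons n ns ih =>
    intro ss gs hs h g hg
    cases gs with
    | nil => exact absurd hg List.not_mem_nil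
    | cons g₀ gs =>
      have h' : (bif Nat.beq (Nat.mod n 8) 7 then
          !ss.isEmpty && (leq g₀ (goalOf P (ss.headD [])) && runT P ns ss.tail gs)
        else bif Nat.beq (Nat.mod n 8) 0 then
          leafOk (baseR P) g₀ (Nat.div n 8) && runT P ns ss gs
        else valid8 (Nat.mod n 8) (Nat.div n 8) &&
          runT P ns ss (expand P g₀ gs (pcs8 (Nat.mod n 8) (Nat.div n 8)))) = true := h
      cases hk7 : Nat.beq (Nat.mod n 8) 7
      · rw [hk7, cond_false] at h'
        cases hk : Nat.beq (Nat.mod n 8) 0
        · rw [hk, cond_false, Bool.and_eq_true] at h'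
          obtain ⟨h1, h2⟩ := h'
          have h3 := ih _ _ hs h2
          rcases List.mem_cons.1 hg with rfl | hg'
          · intro hrows
            obtain ⟨y, hy, f, hfm, hrep⟩ := node_sound8 (lam := lam) (δ := δ) hw hf _ _ h1
            refine h3 _ (expand_mem P g gs _ f hfm) ?_
            intro f' hf'
            rcases List.mem_cons.1 hf' with rfl | hf''
            · refine ⟨_, rep_sub (rep_mul P.den hrep) (rep_tf P hd), ?_⟩
              have hd' : (0 : ℝ) < P.den := by exact_mod_cast hd
              nlinarith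
            · exact hrows f' hf''
          · exact h3 g (expand_mem' P g₀ gs _ g hg')
        · rw [hk, cond_true, Bool.and_eq_true] at h'
          obtain ⟨h1, h2⟩ := h'
          rcases List.mem_cons.1 hg with rfl | hg'
          · intro hrows
            exact leafOk_sound hx _ _ _ hb hrows h1
          · exact ih ss gs hs h2 g hg'
      · rw [hk7, cond_true] at h'
        cases ss with
        | nil => exact absurd h' (by simp)
        | cons s ss =>
          have h'' : (true && (leq g₀ (goalOf P s) && runT P ns ss gs)) = true := h'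
          rw [Bool.true_and, Bool.and_eq_true] at h''
          obtain ⟨h1, h2⟩ := h''
          rcases List.mem_cons.1 hg with rfl | hg'
          · rw [leq_eq _ _ h1]
            exact hs s List.mem_cons_self
          · exact ih ss gs (fun s' hs' => hs s' (List.mem_cons_of_mem _ hs')) h2 g hg'

/-- a successful run with its parts shows that not all bounds fail -/
theorem no_fail9 (P : Prm) (ns : List ℕ) (ss : List (List (ℕ × ℕ)))
    (hrun : runT P ns ss [[]] = true)
    (hss : ∀ s ∈ ss, ∃ ms : List ℕ, run8 P ms [goalOf P s] = true) (hd : 0 < P.den)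
    (lam δ : ℝ) (hl : 0 ≤ lam) (hδ : 0 ≤ δ) (hlo : (P.lon : ℝ) ≤ P.lod * lam)
    (hhi : P.hid * lam ≤ P.hin) (v w : Fin 3 → Fin 8 → ℝ) (hP : Poly 7 lam δ v w)
    (h : Fail8 v w (P.th lam + 1000 * δ)) : False := by
  have key : ∀ v w : Fin 3 → Fin 8 → ℝ, Poly 7 lam δ v w → Fail8 v w (P.th lam + 1000 * δ) →
      cost v 2 univ ≤ cost v 1 univ → False := by
    intro v w hP h hle
    have hb := base_sound P hP (wt_of hP) hle hlo hhi
    refine runT_sound P hd (xx_nonneg hP hl hδ) (wt_of hP) hb
      h ns ss [[]] (fun s hs => ?_) hrun [] List.mem_cons_self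
      (fun f hf => absurd hf List.not_mem_nil)
    obtain ⟨ms, hms⟩ := hss s hs
    exact run8_sound P hd (xx_nonneg hP hl hδ) (wt_of hP) hb h ms [goalOf P s] hms _
      List.mem_cons_self
  rcases le_total (cost v 2 univ) (cost v 1 univ) with hc | hc
  · exact key v w hP h hc
  · refine key (fun j => v (sw j)) (fun j => w (sw j)) ?_ (fail8_sw h) hc
    exact ⟨fun j i => hP.v_nonneg _ i, fun j i hi => hP.w_eq _ i hi, fun j => hP.w_last _,
      hP.w0, hP.w2, hP.w2', hP.w1, hP.w1', by
        have := hP.tot
        have e : ∀ j, cost (fun j => v (sw j)) j univ = cost v (sw j) univ := fun j => rfl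
        rw [e, e, e]
        change cost v 0 univ + cost v 2 univ + cost v 1 univ ≤ lam
        linarith⟩

end sound

end Pool.Agent.U663.AB
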