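import Mathlib
import Pool.Agent.W221.ABC.Fx

/-!
# The new exponent
-/

set_option autoImplicit false

namespace Pool.Agent.U663.AB

open Pool.Agent.W221.ABC7

/-- the exponent, a continuous piecewise linear function -/
noncomputable def Fy (l : ℝ) : ℝ :=
  if l ≤ 1 / 2 then 4 * l / 7
  else if l ≤ 1 then (52 * l + 4) / 105
  else if l ≤ 13 / 12 then (9 * l - 1) / 15
  else if l ≤ 5 / 4 then (12 * l + 1) / 24
  else if l ≤ 35 / 24 then (36 * l - 5) / 60
  else if l ≤ 41 / 24 then (8 * l + 1) / 16
  else if l ≤ 2 then (2 * l + 3) / 7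
  else l - 1

/-- the same function as a lattice polynomial -/
noncomputable def Fy' (l : ℝ) : ℝ :=
  max (l - 1) (min ((2 * l + 3) / 7) (min ((8 * l + 1) / 16) (max ((36 * l - 5) / 60)
    (min ((12 * l + 1) / 24) (max ((9 * l - 1) / 15) (min (4 * l / 7) ((52 * l + 4) / 105)))))))

theorem Fy_eq (l : ℝ) : Fy l = Fy' l := by
  unfold Fy Fy'
  split_ifs with h1 h2 h3 h4 h5 h6 h7
  · rw [min_eq_left (by linarith : 4 * l / 7 ≤ (52 * l + 4) / 105),
      max_eq_right (by linarith : (9 * l - 1) / 15 ≤ 4 * l / 7),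
      min_eq_right (by linarith : 4 * l / 7 ≤ (12 * l + 1) / 24),
      max_eq_right (by linarith : (36 * l - 5) / 60 ≤ 4 * l / 7),
      min_eq_right (by linarith : 4 * l / 7 ≤ (8 * l + 1) / 16),
      min_eq_right (by linarith : 4 * l / 7 ≤ (2 * l + 3) / 7),
      max_eq_right (by linarith)]
  · push Not at h1
    rw [min_eq_right (by linarith : (52 * l + 4) / 105 ≤ 4 * l / 7),
      max_eq_right (by linarith : (9 * l - 1) / 15 ≤ (52 * l + 4) / 105),
      min_eq_right (by linarith : (52 * l + 4) / 105 ≤ (12 * l + 1) / 24),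
      max_eq_right (by linarith : (36 * l - 5) / 60 ≤ (52 * l + 4) / 105),
      min_eq_right (by linarith : (52 * l + 4) / 105 ≤ (8 * l + 1) / 16),
      min_eq_right (by linarith : (52 * l + 4) / 105 ≤ (2 * l + 3) / 7),
      max_eq_right (by linarith)]
  · push Not at h1 h2
    rw [min_eq_right (by linarith : (52 * l + 4) / 105 ≤ 4 * l / 7),
      max_eq_left (by linarith : (52 * l + 4) / 105 ≤ (9 * l - 1) / 15),
      min_eq_right (by linarith : (9 * l - 1) / 15 ≤ (12 * l + 1) / 24),
      max_eq_right (by linarith : (36 * l - 5) / 60 ≤ (9 * l - 1) / 15),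
      min_eq_right (by linarith : (9 * l - 1) / 15 ≤ (8 * l + 1) / 16),
      min_eq_right (by linarith : (9 * l - 1) / 15 ≤ (2 * l + 3) / 7),
      max_eq_right (by linarith)]
  · push Not at h1 h2 h3
    rw [min_eq_right (by linarith : (52 * l + 4) / 105 ≤ 4 * l / 7),
      max_eq_left (by linarith : (52 * l + 4) / 105 ≤ (9 * l - 1) / 15),
      min_eq_left (by linarith : (12 * l + 1) / 24 ≤ (9 * l - 1) / 15),
      max_eq_right (by linarith : (36 * l - 5) / 60 ≤ (12 * l + 1) / 24),
      min_eq_right (by linarith : (12 * l + 1) / 24 ≤ (8 * l + 1) / 16),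
      min_eq_right (by linarith : (12 * l + 1) / 24 ≤ (2 * l + 3) / 7),
      max_eq_right (by linarith)]
  · push Not at h1 h2 h3 h4
    rw [min_eq_right (by linarith : (52 * l + 4) / 105 ≤ 4 * l / 7),
      max_eq_left (by linarith : (52 * l + 4) / 105 ≤ (9 * l - 1) / 15),
      min_eq_left (by linarith : (12 * l + 1) / 24 ≤ (9 * l - 1) / 15),
      max_eq_left (by linarith : (12 * l + 1) / 24 ≤ (36 * l - 5) / 60),
      min_eq_right (by linarith : (36 * l - 5) / 60 ≤ (8 * l + 1) / 16),
      min_eq_right (by linarith : (36 * l - 5) / 60 ≤ (2 * l + 3) / 7),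
      max_eq_right (by linarith)]
  · push Not at h1 h2 h3 h4 h5
    rw [min_eq_right (by linarith : (52 * l + 4) / 105 ≤ 4 * l / 7),
      max_eq_left (by linarith : (52 * l + 4) / 105 ≤ (9 * l - 1) / 15),
      min_eq_left (by linarith : (12 * l + 1) / 24 ≤ (9 * l - 1) / 15),
      max_eq_left (by linarith : (12 * l + 1) / 24 ≤ (36 * l - 5) / 60),
      min_eq_left (by linarith : (8 * l + 1) / 16 ≤ (36 * l - 5) / 60),
      min_eq_right (by linarith : (8 * l + 1) / 16 ≤ (2 * l + 3) / 7),
      max_eq_right (by linarith)]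
  · push Not at h1 h2 h3 h4 h5 h6
    rw [min_eq_right (by linarith : (52 * l + 4) / 105 ≤ 4 * l / 7),
      max_eq_left (by linarith : (52 * l + 4) / 105 ≤ (9 * l - 1) / 15),
      min_eq_left (by linarith : (12 * l + 1) / 24 ≤ (9 * l - 1) / 15),
      max_eq_left (by linarith : (12 * l + 1) / 24 ≤ (36 * l - 5) / 60),
      min_eq_left (by linarith : (8 * l + 1) / 16 ≤ (36 * l - 5) / 60),
      min_eq_left (by linarith : (2 * l + 3) / 7 ≤ (8 * l + 1) / 16),
      max_eq_right (by linarith)]
  · push Not at h1 h2 h3 h4 h5 h6 h7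
    rw [min_eq_right (by linarith : (52 * l + 4) / 105 ≤ 4 * l / 7),
      max_eq_left (by linarith : (52 * l + 4) / 105 ≤ (9 * l - 1) / 15),
      min_eq_left (by linarith : (12 * l + 1) / 24 ≤ (9 * l - 1) / 15),
      max_eq_left (by linarith : (12 * l + 1) / 24 ≤ (36 * l - 5) / 60),
      min_eq_left (by linarith : (8 * l + 1) / 16 ≤ (36 * l - 5) / 60),
      min_eq_left (by linarith : (2 * l + 3) / 7 ≤ (8 * l + 1) / 16),
      max_eq_left (by linarith)]

theorem ml_Fy : ML Fy := by
  rw [show Fy = Fy' from funext Fy_eq]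
  have h1 : ML fun l => l - 1 := fun l m h => ⟨by linarith, by linarith⟩
  have h2 : ML fun l => (2 * l + 3) / 7 := fun l m h => ⟨by linarith, by linarith⟩
  have h3 : ML fun l => (8 * l + 1) / 16 := fun l m h => ⟨by linarith, by linarith⟩
  have h4 : ML fun l => (36 * l - 5) / 60 := fun l m h => ⟨by linarith, by linarith⟩
  have h5 : ML fun l => (12 * l + 1) / 24 := fun l m h => ⟨by linarith, by linarith⟩
  have h6 : ML fun l => (9 * l - 1) / 15 := fun l m h => ⟨by linarith, by linarith⟩
  have h7 : ML fun l => 4 * l / 7 := fun l m h => ⟨by linarith, by linarith⟩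
  have h8 : ML fun l => (52 * l + 4) / 105 := fun l m h => ⟨by linarith, by linarith⟩
  exact h1.max (h2.min (h3.min (h4.max (h5.min (h6.max (h7.min h8))))))

theorem hh_Fy : HH Fy := by
  rw [show Fy = Fy' from funext Fy_eq]
  have h1 : HH fun l => l - 1 := fun l m h _ => by
    simp only
    nlinarith
  have h2 : HH fun l => (2 * l + 3) / 7 := fun l m h _ => by
    simp only
    nlinarith
  have h3 : HH fun l => (8 * l + 1) / 16 := fun l m h _ => by
    simp only
    nlinarith
  have h4 : HH fun l => (36 * l - 5) / 60 := fun l m h _ => by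
    simp only
    nlinarith
  have h5 : HH fun l => (12 * l + 1) / 24 := fun l m h _ => by
    simp only
    nlinarith
  have h6 : HH fun l => (9 * l - 1) / 15 := fun l m h _ => by
    simp only
    nlinarith
  have h7 : HH fun l => 4 * l / 7 := fun l m h _ => by
    simp only
    nlinarith
  have h8 : HH fun l => (52 * l + 4) / 105 := fun l m h _ => by
    simp only
    nlinarith
  exact h1.max (h2.min (h3.min (h4.max (h5.min (h6.max (h7.min h8))))))

theorem gg_Fy : GG Fy := by
  rw [show Fy = Fy' from funext Fy_eq]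
  have h1 : GG fun l => l - 1 := fun l m _ h => by
    simp only
    nlinarith
  have h2 : GG fun l => (2 * l + 3) / 7 := fun l m _ h => by
    simp only
    nlinarith
  have h3 : GG fun l => (8 * l + 1) / 16 := fun l m _ h => by
    simp only
    nlinarith
  have h4 : GG fun l => (36 * l - 5) / 60 := fun l m _ h => by
    simp only
    nlinarith
  have h5 : GG fun l => (12 * l + 1) / 24 := fun l m _ h => by
    simp only
    nlinarith
  have h6 : GG fun l => (9 * l - 1) / 15 := fun l m _ h => by
    simp only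
    nlinarith
  have h7 : GG fun l => 4 * l / 7 := fun l m _ h => by
    simp only
    nlinarith
  have h8 : GG fun l => (52 * l + 4) / 105 := fun l m _ h => by
    simp only
    nlinarith
  exact h1.max (h2.min (h3.min (h4.max (h5.min (h6.max (h7.min h8))))))

theorem Fy_ge (l : ℝ) : l - 1 ≤ Fy l := by
  rw [Fy_eq]
  exact le_max_left _ _

theorem Fy_two (l : ℝ) (h : 2 ≤ l) : Fy l = l - 1 := by
  rcases eq_or_lt_of_le h with rfl | h
  · unfold Fy
    norm_num
  · unfold Fy
    rw [if_neg (by linarith), if_neg (by linarith), if_neg (by linarith), if_neg (by linarith),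
      if_neg (by linarith), if_neg (by linarith), if_neg (by linarith)]

theorem Fy_pos (l : ℝ) (h : 0 < l) : 0 < Fy l := by
  unfold Fy
  split_ifs with h1 h2 h3 h4 h5 h6 h7
  · positivity
  · positivity
  · push Not at h2
    linarith
  · positivity
  · push Not at h1 h2 h3 h4
    linarith
  · positivity
  · positivity
  · push Not at h7
    linarith

/-- below `2` the exponent is less than `1` -/
theorem Fy_lt (l : ℝ) (h : l < 2) : Fy l < 1 := by
  unfold Fy
  split_ifs <;> linarith

end Pool.Agent.U663.AB
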