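import Mathlib
import Pool.Agent.U663.AB.Seg
import Pool.Agent.U663.AB.Fy
import Pool.Agent.W221.ABC.CS9
import Pool.Agent.U663.AB.P1
import Pool.Agent.U663.AB.P2
import Pool.Agent.U663.AB.P3
import Pool.Agent.U663.AB.P4
import Pool.Agent.U663.AB.P5
import Pool.Agent.U663.AB.P6
import Pool.Agent.U663.AB.P7
import Pool.Agent.U663.AB.P8
import Pool.Agent.U663.AB.P9
import Pool.Agent.U663.AB.P10
import Pool.Agent.U663.AB.P11
import Pool.Agent.U663.AB.P12

/-!
# The count of abc-triples with `rad (abc) ≤ c ^ lam`, with the new exponent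
-/

set_option autoImplicit false

namespace Pool.Agent.U663.AB

open Finset Pool.Agent.H785R2.ABC Pool.Agent.H705R2.ABC Pool.Agent.W221.ABC7

/-- between `1/2` and `1` -/
theorem count_1 (lam : ℝ) (h1 : 1 / 2 ≤ lam) (h2 : lam ≤ 1) :
    StmtCount lam ((52 * lam + 4) / 105) := by
  rcases le_total lam (3 / 5) with h | h
  · have := count_seg8 P1.prm P1.dat P1.run_ok (by norm_num [P1.prm]) lam (by linarith)
      (by simp only [P1.prm]; push_cast; linarith) (by simp only [P1.prm]; push_cast; linarith)
      (by simp only [Prm.th, P1.prm]; norm_num; linarith)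
    simpa [Prm.th, P1.prm] using this
  rcases le_total lam (7 / 10) with h' | h'
  · have := count_seg8 P2.prm P2.dat P2.run_ok (by norm_num [P2.prm]) lam (by linarith)
      (by simp only [P2.prm]; push_cast; linarith) (by simp only [P2.prm]; push_cast; linarith)
      (by simp only [Prm.th, P2.prm]; norm_num; linarith)
    simpa [Prm.th, P2.prm] using this
  rcases le_total lam (4 / 5) with h'' | h''
  · have := count_seg8 P3.prm P3.dat P3.run_ok (by norm_num [P3.prm]) lam (by linarith)
      (by simp only [P3.prm]; push_cast; linarith) (by simp only [P3.prm]; push_cast; linarith)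
      (by simp only [Prm.th, P3.prm]; norm_num; linarith)
    simpa [Prm.th, P3.prm] using this
  rcases le_total lam (9 / 10) with h3 | h3
  · have := count_seg8 P4.prm P4.dat P4.run_ok (by norm_num [P4.prm]) lam (by linarith)
      (by simp only [P4.prm]; push_cast; linarith) (by simp only [P4.prm]; push_cast; linarith)
      (by simp only [Prm.th, P4.prm]; norm_num; linarith)
    simpa [Prm.th, P4.prm] using this
  rcases le_total lam (19 / 20) with h4 | h4
  · have := count_seg8 P5.prm P5.dat P5.run_ok (by norm_num [P5.prm]) lam (by linarith)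
      (by simp only [P5.prm]; push_cast; linarith) (by simp only [P5.prm]; push_cast; linarith)
      (by simp only [Prm.th, P5.prm]; norm_num; linarith)
    simpa [Prm.th, P5.prm] using this
  · have := count_seg9 P6.prm P6.top P6.ss P6.top_ok P6.parts_ok (by norm_num [P6.prm]) lam (by linarith)
      (by simp only [P6.prm]; push_cast; linarith) (by simp only [P6.prm]; push_cast; linarith)
      (by simp only [Prm.th, P6.prm]; norm_num; linarith)
    simpa [Prm.th, P6.prm] using this

/-- between `1` and `13/12` -/
theorem count_2 (lam : ℝ) (h1 : 1 ≤ lam) (h2 : lam ≤ 13 / 12) :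
    StmtCount lam ((9 * lam - 1) / 15) := by
  have := count_seg9 P7.prm P7.top P7.ss P7.top_ok P7.parts_ok (by norm_num [P7.prm]) lam (by linarith)
    (by simp only [P7.prm]; push_cast; linarith) (by simp only [P7.prm]; push_cast; linarith)
    (by simp only [Prm.th, P7.prm]; norm_num; linarith)
  simpa [Prm.th, P7.prm] using this

/-- between `13/12` and `5/4` -/
theorem count_3 (lam : ℝ) (h1 : 13 / 12 ≤ lam) (h2 : lam ≤ 5 / 4) :
    StmtCount lam ((12 * lam + 1) / 24) := by
  have := count_seg8 P8.prm P8.dat P8.run_ok (by norm_num [P8.prm]) lam (by linarith)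
    (by simp only [P8.prm]; push_cast; linarith) (by simp only [P8.prm]; push_cast; linarith)
    (by simp only [Prm.th, P8.prm]; norm_num; linarith)
  simpa [Prm.th, P8.prm] using this

/-- between `5/4` and `35/24` -/
theorem count_4 (lam : ℝ) (h1 : 5 / 4 ≤ lam) (h2 : lam ≤ 35 / 24) :
    StmtCount lam ((36 * lam - 5) / 60) := by
  have := count_seg8 P9.prm P9.dat P9.run_ok (by norm_num [P9.prm]) lam (by linarith)
    (by simp only [P9.prm]; push_cast; linarith) (by simp only [P9.prm]; push_cast; linarith)
    (by simp only [Prm.th, P9.prm]; norm_num; linarith)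
  simpa [Prm.th, P9.prm] using this

/-- between `35/24` and `41/24` -/
theorem count_5 (lam : ℝ) (h1 : 35 / 24 ≤ lam) (h2 : lam ≤ 41 / 24) :
    StmtCount lam ((8 * lam + 1) / 16) := by
  rcases le_total lam (13 / 8) with h | h
  · have := count_seg8 P10.prm P10.dat P10.run_ok (by norm_num [P10.prm]) lam (by linarith)
      (by simp only [P10.prm]; push_cast; linarith) (by simp only [P10.prm]; push_cast; linarith)
      (by simp only [Prm.th, P10.prm]; norm_num; linarith)
    simpa [Prm.th, P10.prm] using this
  · have := count_seg8 P11.prm P11.dat P11.run_ok (by norm_num [P11.prm]) lam (by linarith)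
      (by simp only [P11.prm]; push_cast; linarith) (by simp only [P11.prm]; push_cast; linarith)
      (by simp only [Prm.th, P11.prm]; norm_num; linarith)
    simpa [Prm.th, P11.prm] using this

/-- between `41/24` and `2` -/
theorem count_6 (lam : ℝ) (h1 : 41 / 24 ≤ lam) (h2 : lam ≤ 2) :
    StmtCount lam ((2 * lam + 3) / 7) := by
  have := count_seg8 P12.prm P12.dat P12.run_ok (by norm_num [P12.prm]) lam (by linarith)
    (by simp only [P12.prm]; push_cast; linarith) (by simp only [P12.prm]; push_cast; linarith)
    (by simp only [Prm.th, P12.prm]; norm_num; linarith)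
  simpa [Prm.th, P12.prm] using this

/-- between `2` and `3` -/
theorem count_7 (lam : ℝ) (h1 : 2 ≤ lam) (h2 : lam ≤ 3) : StmtCount lam (lam - 1) := by
  have := count_seg CS9.prm CS9.dat CS9.run_ok (by norm_num [CS9.prm]) lam (by linarith)
    (by simp only [CS9.prm]; push_cast; linarith) (by simp only [CS9.prm]; push_cast; linarith)
    (by simp only [Prm.th, CS9.prm]; norm_num; linarith)
  simpa [Prm.th, CS9.prm] using this

/-- **The count.** -/
theorem count_Fy (lam : ℝ) (hl : 0 < lam) : StmtCount lam (Fy lam) := by
  unfold Fy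
  split_ifs with h1 h2 h3 h4 h5 h6 h7
  · exact main lam hl (by linarith)
  · exact count_1 lam (by linarith) h2
  · exact count_2 lam (by linarith) h3
  · exact count_3 lam (by linarith) h4
  · exact count_4 lam (by linarith) h5
  · exact count_5 lam (by linarith) h6
  · exact count_6 lam (by linarith) h7
  · push Not at h7
    rcases le_total lam 3 with h | h
    · exact count_7 lam h7.le h
    · exact count_mono (count_triv lam) (by linarith)

/-- the count with `rad (abc) ≤ B c ^ lam` -/
theorem count_FyB (B lam ε : ℝ) (hlam : 0 < lam) (hε : 0 < ε) :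
    ∃ C : ℝ, ∀ X : ℕ, 1 ≤ X → ((ExcB B lam X).ncard : ℝ) ≤ C * (X : ℝ) ^ (Fy lam + ε) :=
  count_B Fy (fun l hl => (Fy_pos l hl).le) ml_Fy count_Fy B lam ε hlam hε

end Pool.Agent.U663.AB
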