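import Mathlib
import Pool.Agent.U663.AB.Chk9

/-!
# Parameters (generated): 19/20 ≤ λ ≤ 1/1, exponent (52 λ + 4)/105
-/

set_option autoImplicit false

namespace Pool.Agent.U663.AB.P6

open Pool.Agent.W221.ABC7

def prm : Prm := ⟨52, 4, 105, false, 19, 20, 1, 1⟩

end Pool.Agent.U663.AB.P6
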