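import Mathlib
import Pool.Agent.U663.AB.Chk9

/-!
# Parameters (generated): 1/1 ≤ λ ≤ 13/12, exponent (9 λ - 1)/15
-/

set_option autoImplicit false

namespace Pool.Agent.U663.AB.P7

open Pool.Agent.W221.ABC7

def prm : Prm := ⟨9, 1, 15, true, 1, 1, 13, 12⟩

end Pool.Agent.U663.AB.P7
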